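import Pool.Agent.R136.Mu.Defs

set_option autoImplicit false

open MvPolynomial

namespace Pool.Agent.R136.Mu

def rays : ℕ → List (Fin 6 → ℤ)
  | 0 => [![1, 1, 1, 1, 1, 1]]
  | 1 => [![1, 2, 0, 3, 1, 2]]
  | 2 => [![0, 1, -1, 3, -1, 0], ![3, 4, 8, 3, 11, 12]]
  | 3 => [![0, 0, 0, 1, -1, -2], ![3, 4, 0, 3, 1, 0], ![0, 2, 0, 3, 5, 12]]
  | 4 => [![0, 0, 0, 0, 0, -1], ![9, 16, 64, 9, 121, 144], ![3, 4, 8, 3, 11, 12], ![0, 0, -1, 0, -2, -3], ![0, 2, 2, 3, 7, 12], ![0, 0, 0, 3, -1, 12]]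
  | 5 => [![0, 0, 0, 0, 0, -1], ![0, 0, 0, 0, -1, -3], ![9, 16, 0, 9, 11, 0], ![0, 8, 0, 9, 55, 144], ![3, 4, 0, 3, 1, 0], ![0, 0, 0, 3, 1, 12]]
  | _ => []

def certs : ℕ → List (ℕ × List ℕ)
  | 0 => [(1, [24]), (1, [0]), (1, [1])]
  | 1 => [(1, [6]), (1, [0]), (1, [1])]
  | 2 => [(1, [4, 2]), (1, [0, 0]), (1, [0, 2]), (1, [4, 0]), (1, [1, 0]), (1, [0, 1]), (3, [8, 1])]
  | 3 => [(1, [6, 2, 2]), (1, [0, 0, 0]), (1, [0, 2, 0]), (1, [0, 2, 2]), (1, [6, 0, 2]), (1, [0, 0, 2]), (1, [6, 0, 0]), (1, [1, 0, 0]), (1, [0, 1, 0]), (1, [0, 0, 1]), (1, [6, 0, 1]), (1, [0, 1, 2])]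
  | 4 => [(1, [24, 0, 2, 8, 2, 2]), (1, [0, 0, 0, 0, 0, 0]), (1, [0, 0, 2, 0, 0, 0]), (1, [0, 0, 2, 8, 0, 0]), (1, [0, 0, 2, 8, 2, 0]), (1, [0, 0, 2, 8, 2, 2]), (1, [24, 0, 0, 8, 2, 2]), (1, [0, 0, 0, 8, 0, 0]), (1, [0, 0, 0, 8, 2, 0]), (1, [0, 0, 0, 8, 2, 2]), (1, [24, 0, 0, 0, 2, 2]), (1, [0, 0, 0, 0, 2, 0]), (1, [0, 0, 0, 0, 2, 2]), (1, [24, 0, 0, 0, 0, 2]), (1, [0, 0, 0, 0, 0, 2]), (1, [24, 0, 0, 0, 0, 0]), (1, [1, 0, 0, 0, 0, 0]), (1, [0, 1, 0, 0, 0, 0]), (1, [0, 0, 1, 0, 0, 0]), (1, [0, 0, 0, 1, 0, 0]), (1, [0, 0, 0, 0, 1, 0]), (1, [0, 0, 0, 0, 0, 1]), (1, [16, 0, 0, 0, 0, 1]), (1, [0, 0, 1, 12, 2, 0]), (1, [0, 0, 0, 4, 2, 1]), (2, [72, 0, 0, 0, 1, 5]), (1, [0, 0, 0, 12, 2, 1])]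
  | 5 => [(6, [72, 84, 4, 1, 0, 21]), (1, [0, 0, 0, 0, 0, 0]), (1, [0, 0, 0, 0, 2, 0]), (2, [0, 36, 0, 1, 4, 1]), (2, [0, 52, 0, 1, 4, 1]), (6, [0, 84, 4, 1, 0, 21]), (2, [24, 52, 0, 1, 0, 5]), (2, [0, 36, 0, 1, 0, 1]), (2, [0, 52, 0, 1, 0, 1]), (2, [0, 52, 0, 1, 0, 5]), (1, [12, 8, 0, 0, 0, 2]), (1, [0, 8, 0, 0, 0, 0]), (1, [0, 8, 0, 0, 0, 2]), (1, [12, 0, 0, 0, 0, 2]), (1, [0, 0, 0, 0, 0, 2]), (1, [12, 0, 0, 0, 0, 0]), (1, [1, 0, 0, 0, 0, 0]), (1, [0, 1, 0, 0, 0, 0]), (1, [0, 0, 1, 0, 0, 0]), (1, [0, 0, 0, 1, 0, 0]), (1, [0, 0, 0, 0, 1, 0]), (1, [0, 0, 0, 0, 0, 1]), (1, [2, 0, 0, 0, 0, 0]), (1, [0, 0, 1, 2, 0, 0]), (2, [0, 36, 0, 1, 2, 1]), (1, [0, 2, 0, 0, 0, 0]), (2, [0, 44, 0, 1, 0, 3]), (1, [0, 4, 0, 0, 0, 3]), (1, [12, 0, 0, 0, 0, 1]), (2, [0, 60, 0,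 1, 0, 3]), (4, [0, 84, 0, 1, 0, 9]), (1, [0, 12, 0, 0, 0, 1])]
  | _ => []

def parts : ℕ → List (Fin 4 → ℕ)
  | 0 => [![0, 0, 0, 0]]
  | 1 => [![1, 0, 0, 0]]
  | 2 => [![2, 0, 0, 0], ![1, 1, 0, 0]]
  | 3 => [![3, 0, 0, 0], ![2, 1, 0, 0], ![1, 1, 1, 0]]
  | 4 => [![4, 0, 0, 0], ![3, 1, 0, 0], ![2, 2, 0, 0], ![2, 1, 1, 0], ![1, 1, 1, 1]]
  | 5 => [![5, 0, 0, 0], ![4, 1, 0, 0], ![3, 2, 0, 0], ![3, 1, 1, 0], ![2, 2, 1, 0], ![2, 1, 1, 1]]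
  | 6 => [![6, 0, 0, 0], ![5, 1, 0, 0], ![4, 2, 0, 0], ![4, 1, 1, 0], ![3, 3, 0, 0], ![3, 2, 1, 0], ![3, 1, 1, 1], ![2, 2, 2, 0], ![2, 2, 1, 1]]
  | _ => []
def pt : Fin 6 → Fin 4 → ℤ :=
  ![![1, 0, 0, 0], ![1, 1, 0, 0], ![1, -1, 0, 0], ![1, 1, 1, 0], ![1, 1, -1, 0], ![1, 1, 1, -1]]

def wt : Fin 6 → ℤ := ![-236, 1647, 729, 387, -351, -9]

def Lz (z : Fin 6 → ℤ) : ℤ := ∑ k, wt k * z k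

def combo : List ℕ → List (Fin 6 → ℤ) → Fin 6 → ℤ
  | a :: as, r :: rs, k => a * r k + combo as rs k
  | _, _, _ => 0

def check (d : ℕ) (z : Fin 6 → ℤ) : Bool :=
  (certs d).any (fun c => decide (0 < c.1 ∧ ∀ k : Fin 6, (c.1 : ℤ) * z k = combo c.2 (rays d) k))

/-- Integer evaluation of `m_l`. -/
def mz (l : Fin 4 → ℕ) (y : Fin 4 → ℤ) : ℤ := ∑ η ∈ rearr l, ∏ i, y i ^ η i

/-- `24 M_l` at the test points. -/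
def gz (l : Fin 4 → ℕ) (k : Fin 6) : ℤ := ((24 / (rearr l).card : ℕ) : ℤ) * mz l (pt k)

def majB (l m : Fin 4 → ℕ) : Bool :=
  decide (m 0 ≤ l 0 ∧ m 0 + m 1 ≤ l 0 + l 1 ∧ m 0 + m 1 + m 2 ≤ l 0 + l 1 + l 2)

theorem card_dvd : ∀ d ∈ List.range 7, ∀ l ∈ parts d, (rearr l).card ∣ 24 := by decide +kernel

theorem gens_ok : ∀ d ∈ List.range 6, ∀ l ∈ parts d, check d (gz l) = true ∧
    ∀ m ∈ parts d, majB l m = true → check d (fun k => gz l k - gz m k) = true := by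
  decide +kernel

theorem gens6_ok : ∀ l ∈ parts 6, 0 ≤ Lz (gz l) ∧
    ∀ m ∈ parts 6, majB l m = true → 0 ≤ Lz (fun k => gz l k - gz m k) := by
  decide +kernel

theorem prods_ok : ∀ i ∈ List.range 6, ∀ j ∈ List.range 6, i + j ≤ 5 →
    ∀ r ∈ rays i, ∀ s ∈ rays j, check (i + j) (fun k => r k * s k) = true := by
  decide +kernel

theorem prods6_ok : ∀ i ∈ List.range 6, ∀ j ∈ List.range 6, i + j = 6 →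
    ∀ r ∈ rays i, ∀ s ∈ rays j, 0 ≤ Lz (fun k => r k * s k) := by
  decide +kernel

end Pool.Agent.R136.Mu
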