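import Mathlib

set_option autoImplicit false

open MvPolynomial

namespace Pool.Agent.R136.Mu

/-- `l` majorizes `m`: all partial sums of `l` are at least those of `m`, and the total sums
are equal. -/
def Majorizes {n : ℕ} (l m : Fin n → ℕ) : Prop :=
  (∀ k : ℕ, ∑ i ∈ Finset.univ.filter (fun i : Fin n => i.val < k), m i
      ≤ ∑ i ∈ Finset.univ.filter (fun i : Fin n => i.val < k), l i) ∧
  ∑ i, l i = ∑ i, m i

/-- The distinct rearrangements of `l`. -/
def rearr {n : ℕ} (l : Fin n → ℕ) : Finset (Fin n → ℕ) :=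
  Finset.univ.image (fun σ : Equiv.Perm (Fin n) => fun i => l (σ i))

/-- The monomial symmetric polynomial `m_l`. -/
noncomputable def msymm {n : ℕ} (l : Fin n → ℕ) : MvPolynomial (Fin n) ℝ :=
  ∑ η ∈ rearr l, ∏ i, X i ^ η i

/-- `P / P(1,…,1)`. -/
noncomputable def normalized {n : ℕ} (P : MvPolynomial (Fin n) ℝ) : MvPolynomial (Fin n) ℝ :=
  C ((eval (fun _ => (1 : ℝ)) P)⁻¹) * P

/-- The generators `M_l - M_m` (`l` majorizes `m`) and `M_l` of the Muirhead semiring. -/
def muirheadGens (n : ℕ) : Set (MvPolynomial (Fin n) ℝ) :=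
  {p | ∃ l m : Fin n → ℕ, Antitone l ∧ Antitone m ∧ Majorizes l m ∧
      p = normalized (msymm l) - normalized (msymm m)} ∪
  {p | ∃ l : Fin n → ℕ, Antitone l ∧ p = normalized (msymm l)}

/-- The Muirhead semiring: all finite nonnegative real combinations of finite products of
generators. -/
def muirheadSemiring (n : ℕ) : Set (MvPolynomial (Fin n) ℝ) :=
  {p | p ∈ Submodule.span NNReal
    (Submonoid.closure (muirheadGens n) : Set (MvPolynomial (Fin n) ℝ))}

/-- `P` is the monic Jack polynomial `P_l(x; τ)` in `n` variables (Jack parameter `α = 1/τ`):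
`P = m_l + ∑ c_m m_m` over partitions `m ≠ l` majorized by `l`, and `P` is an eigenfunction of the
Laplace–Beltrami operator `∑ x_i² ∂_i² + 2τ ∑_{i ≠ j} x_i² / (x_i - x_j) ∂_i`. -/
def IsJack {n : ℕ} (τ : ℝ) (l : Fin n → ℕ) (P : MvPolynomial (Fin n) ℝ) : Prop :=
  (∃ (s : Finset (Fin n → ℕ)) (c : (Fin n → ℕ) → ℝ),
      (∀ m ∈ s, Antitone m ∧ Majorizes l m ∧ m ≠ l) ∧
      P = msymm l + ∑ m ∈ s, C (c m) * msymm m) ∧
  ∃ e : ℝ, ∀ x : Fin n → ℝ, Function.Injective x →
    ∑ i, x i ^ 2 * eval x (pderiv i (pderiv i P))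
      + 2 * τ * ∑ i, ∑ j ∈ Finset.univ.erase i,
          x i ^ 2 / (x i - x j) * eval x (pderiv i P)
      = e * eval x P

end Pool.Agent.R136.Mu
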