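import Pool.Agent.R136.Mu.Sep

set_option autoImplicit false

open MvPolynomial

namespace Pool.Agent.R136.Mu

theorem pair_quot (a b x y q : ℝ) (h : x ≠ y) (hq : x ^ 2 * a - y ^ 2 * b = (x - y) * q) :
    x ^ 2 / (x - y) * a + y ^ 2 / (y - x) * b = q := by
  have h1 : x - y ≠ 0 := sub_ne_zero.mpr h
  have h2 : y - x = -(x - y) := by ring
  rw [h2, div_neg, neg_mul, div_mul_eq_mul_div, div_mul_eq_mul_div, ← sub_eq_add_neg, ← sub_div,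
    hq, mul_div_cancel_left₀ q h1]

theorem sum_pairs (f : Fin 4 → Fin 4 → ℝ) : ∑ i, ∑ j ∈ Finset.univ.erase i, f i j =
    (f 0 1 + f 1 0) + (f 0 2 + f 2 0) + (f 0 3 + f 3 0) + (f 1 2 + f 2 1) + (f 1 3 + f 3 1)
      + (f 2 3 + f 3 2) := by
  have h0 : (Finset.univ.erase (0 : Fin 4)) = {1, 2, 3} := by decide
  have h1 : (Finset.univ.erase (1 : Fin 4)) = {0, 2, 3} := by decide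
  have h2 : (Finset.univ.erase (2 : Fin 4)) = {0, 1, 3} := by decide
  have h3 : (Finset.univ.erase (3 : Fin 4)) = {0, 1, 2} := by decide
  rw [Fin.sum_univ_four, h0, h1, h2, h3]
  simp only [Finset.sum_insert, Finset.mem_insert, Finset.mem_singleton, Finset.sum_singleton,
    Fin.reduceEq, or_false, not_false_eq_true]
  ring

theorem prod_X_eq (η : Fin 4 → ℕ) : (∏ j, (X j : MvPolynomial (Fin 4) ℝ) ^ η j)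
    = monomial (Finsupp.equivFunOnFinite.symm η) 1 := by
  rw [monomial_eq, C_1, one_mul, Finsupp.prod_fintype _ _ (fun i => pow_zero _)]
  rfl

theorem eval_d (i : Fin 4) (l : Fin 4 → ℕ) (x : Fin 4 → ℝ) :
    eval x (pderiv i (msymm l))
      = ∑ η ∈ rearr l, (η i : ℝ) * ∏ j, x j ^ (η j - if j = i then 1 else 0) := by
  unfold msymm
  rw [map_sum, map_sum]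
  refine Finset.sum_congr rfl fun η _ => ?_
  rw [prod_X_eq, pderiv_monomial, eval_monomial, Finsupp.prod_fintype _ _ (fun i => pow_zero _),
    one_mul]
  congr 1
  refine Finset.prod_congr rfl fun j _ => ?_
  congr 1
  rw [Finsupp.tsub_apply, Finsupp.single_apply]
  simp only [Finsupp.equivFunOnFinite_symm_apply_apply, eq_comm]

theorem eval_dd (i : Fin 4) (l : Fin 4 → ℕ) (x : Fin 4 → ℝ) :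
    x i ^ 2 * eval x (pderiv i (pderiv i (msymm l)))
      = ∑ η ∈ rearr l, ((η i : ℝ) * ((η i : ℝ) - 1)) * ∏ j, x j ^ η j := by
  unfold msymm
  rw [map_sum, map_sum, map_sum, Finset.mul_sum]
  refine Finset.sum_congr rfl fun η _ => ?_
  rw [prod_X_eq, pderiv_monomial, pderiv_monomial, eval_monomial,
    Finsupp.prod_fintype _ _ (fun i => pow_zero _), one_mul]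
  have hm : (Finsupp.equivFunOnFinite.symm η) i = η i := rfl
  have hp : ∀ j, (Finsupp.equivFunOnFinite.symm η - Finsupp.single i 1 - Finsupp.single i 1 :
      Fin 4 →₀ ℕ) j
      = if j = i then η i - 2 else η j := by
    intro j
    rw [Finsupp.tsub_apply, Finsupp.tsub_apply, Finsupp.single_apply]
    by_cases h : j = i
    · subst h; simp; omega
    · rw [if_neg h, if_neg (fun h' => h h'.symm)]; simp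
  have hq : (Finsupp.equivFunOnFinite.symm η - Finsupp.single i 1 : Fin 4 →₀ ℕ) i = η i - 1 := by
    rw [Finsupp.tsub_apply, Finsupp.single_eq_same]; rfl
  rw [hm, hq]
  simp only [hp]
  rw [← Finset.mul_prod_erase Finset.univ _ (Finset.mem_univ i),
    ← Finset.mul_prod_erase Finset.univ (fun j => x j ^ η j) (Finset.mem_univ i)]
  have he : ∏ j ∈ Finset.univ.erase i, x j ^ (if j = i then η i - 2 else η j)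
      = ∏ j ∈ Finset.univ.erase i, x j ^ η j :=
    Finset.prod_congr rfl fun j hj => by rw [if_neg (Finset.ne_of_mem_erase hj)]
  rw [he, if_pos rfl]
  rcases Nat.lt_or_ge (η i) 2 with h | h
  · interval_cases h' : η i <;> simp
  · obtain ⟨k, hk⟩ := Nat.exists_eq_add_of_le h
    rw [hk, Nat.add_sub_cancel_left]
    have : ((2 + k - 1 : ℕ) : ℝ) = ((2 + k : ℕ) : ℝ) - 1 := by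
      rw [Nat.cast_sub (by omega)]; simp
    rw [this, pow_add]
    ring

theorem second_order (l : Fin 4 → ℕ) (x : Fin 4 → ℝ) :
    ∑ i, x i ^ 2 * eval x (pderiv i (pderiv i (msymm l)))
      = (∑ i, (l i : ℝ) * ((l i : ℝ) - 1)) * eval x (msymm l) := by
  simp only [eval_dd]
  rw [Finset.sum_comm, eval_msymm, Finset.mul_sum]
  refine Finset.sum_congr rfl fun η hη => ?_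
  rw [← Finset.sum_mul]
  congr 1
  rw [rearr, Finset.mem_image] at hη
  obtain ⟨σ, -, rfl⟩ := hη
  exact Equiv.sum_comp σ (fun i => (l i : ℝ) * ((l i : ℝ) - 1))

def R42 : List (Fin 4 → ℕ) := [![4, 2, 0, 0], ![4, 0, 2, 0], ![4, 0, 0, 2], ![2, 4, 0, 0], ![2, 0, 4, 0], ![2, 0, 0, 4], ![0, 4, 2, 0], ![0, 4, 0, 2], ![0, 2, 4, 0], ![0, 2, 0, 4], ![0, 0, 4, 2], ![0, 0, 2, 4]]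

theorem sum42 (f : (Fin 4 → ℕ) → ℝ) : ∑ η ∈ rearr ![4, 2, 0, 0], f η = (R42.map f).sum := by
  rw [show rearr ![4, 2, 0, 0] = R42.toFinset from by decide +kernel, List.sum_toFinset _ (by decide)]

theorem ev42 (x : Fin 4 → ℝ) : eval x (msymm ![4, 2, 0, 0]) =
    x 0 ^ 4 * x 1 ^ 2 + x 0 ^ 4 * x 2 ^ 2 + x 0 ^ 4 * x 3 ^ 2 + x 0 ^ 2 * x 1 ^ 4 + x 0 ^ 2 * x 2 ^ 4 + x 0 ^ 2 * x 3 ^ 4 + x 1 ^ 4 * x 2 ^ 2 + x 1 ^ 4 * x 3 ^ 2 + x 1 ^ 2 * x 2 ^ 4 + x 1 ^ 2 * x 3 ^ 4 + x 2 ^ 4 * x 3 ^ 2 + x 2 ^ 2 * x 3 ^ 4 := by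
  rw [eval_msymm, sum42]
  simp [R42, Fin.prod_univ_four]
  try ring

def R411 : List (Fin 4 → ℕ) := [![4, 1, 1, 0], ![4, 1, 0, 1], ![4, 0, 1, 1], ![1, 4, 1, 0], ![1, 4, 0, 1], ![1, 1, 4, 0], ![1, 1, 0, 4], ![1, 0, 4, 1], ![1, 0, 1, 4], ![0, 4, 1, 1], ![0, 1, 4, 1], ![0, 1, 1, 4]]

theorem sum411 (f : (Fin 4 → ℕ) → ℝ) : ∑ η ∈ rearr ![4, 1, 1, 0], f η = (R411.map f).sum := by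
  rw [show rearr ![4, 1, 1, 0] = R411.toFinset from by decide +kernel, List.sum_toFinset _ (by decide)]

theorem ev411 (x : Fin 4 → ℝ) : eval x (msymm ![4, 1, 1, 0]) =
    x 0 ^ 4 * x 1 * x 2 + x 0 ^ 4 * x 1 * x 3 + x 0 ^ 4 * x 2 * x 3 + x 0 * x 1 ^ 4 * x 2 + x 0 * x 1 ^ 4 * x 3 + x 0 * x 1 * x 2 ^ 4 + x 0 * x 1 * x 3 ^ 4 + x 0 * x 2 ^ 4 * x 3 + x 0 * x 2 * x 3 ^ 4 + x 1 ^ 4 * x 2 * x 3 + x 1 * x 2 ^ 4 * x 3 + x 1 * x 2 * x 3 ^ 4 := by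
  rw [eval_msymm, sum411]
  simp [R411, Fin.prod_univ_four]
  try ring

def R33 : List (Fin 4 → ℕ) := [![3, 3, 0, 0], ![3, 0, 3, 0], ![3, 0, 0, 3], ![0, 3, 3, 0], ![0, 3, 0, 3], ![0, 0, 3, 3]]

theorem sum33 (f : (Fin 4 → ℕ) → ℝ) : ∑ η ∈ rearr ![3, 3, 0, 0], f η = (R33.map f).sum := by
  rw [show rearr ![3, 3, 0, 0] = R33.toFinset from by decide +kernel, List.sum_toFinset _ (by decide)]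

theorem ev33 (x : Fin 4 → ℝ) : eval x (msymm ![3, 3, 0, 0]) =
    x 0 ^ 3 * x 1 ^ 3 + x 0 ^ 3 * x 2 ^ 3 + x 0 ^ 3 * x 3 ^ 3 + x 1 ^ 3 * x 2 ^ 3 + x 1 ^ 3 * x 3 ^ 3 + x 2 ^ 3 * x 3 ^ 3 := by
  rw [eval_msymm, sum33]
  simp [R33, Fin.prod_univ_four]
  try ring

def R321 : List (Fin 4 → ℕ) := [![3, 2, 1, 0], ![3, 2, 0, 1], ![3, 1, 2, 0], ![3, 1, 0, 2], ![3, 0, 2, 1], ![3, 0, 1, 2], ![2, 3, 1, 0], ![2, 3, 0, 1], ![2, 1, 3, 0], ![2, 1, 0, 3], ![2, 0, 3, 1], ![2, 0, 1, 3], ![1, 3, 2, 0], ![1, 3, 0, 2], ![1, 2, 3, 0], ![1, 2, 0, 3], ![1, 0, 3, 2], ![1, 0, 2, 3], ![0, 3, 2, 1], ![0, 3, 1, 2], ![0, 2, 3, 1], ![0, 2, 1, 3], ![0, 1, 3, 2], ![0, 1, 2, 3]]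

theorem sum321 (f : (Fin 4 → ℕ) → ℝ) : ∑ η ∈ rearr ![3, 2, 1, 0], f η = (R321.map f).sum := by
  rw [show rearr ![3, 2, 1, 0] = R321.toFinset from by decide +kernel, List.sum_toFinset _ (by decide)]

theorem ev321 (x : Fin 4 → ℝ) : eval x (msymm ![3, 2, 1, 0]) =
    x 0 ^ 3 * x 1 ^ 2 * x 2 + x 0 ^ 3 * x 1 ^ 2 * x 3 + x 0 ^ 3 * x 1 * x 2 ^ 2 + x 0 ^ 3 * x 1 * x 3 ^ 2 + x 0 ^ 3 * x 2 ^ 2 * x 3 + x 0 ^ 3 * x 2 * x 3 ^ 2 + x 0 ^ 2 * x 1 ^ 3 * x 2 + x 0 ^ 2 * x 1 ^ 3 * x 3 + x 0 ^ 2 * x 1 * x 2 ^ 3 + x 0 ^ 2 * x 1 * x 3 ^ 3 + x 0 ^ 2 * x 2 ^ 3 * x 3 + x 0 ^ 2 * x 2 * x 3 ^ 3 + x 0 * x 1 ^ 3 * x 2 ^ 2 + x 0 * x 1 ^ 3 * x 3 ^ 2 + x 0 * x 1 ^ 2 * x 2 ^ 3 + x 0 * x 1 ^ 2 * x 3 ^ 3 + x 0 * x 2 ^ 3 * x 3 ^ 2 + x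 0 * x 2 ^ 2 * x 3 ^ 3 + x 1 ^ 3 * x 2 ^ 2 * x 3 + x 1 ^ 3 * x 2 * x 3 ^ 2 + x 1 ^ 2 * x 2 ^ 3 * x 3 + x 1 ^ 2 * x 2 * x 3 ^ 3 + x 1 * x 2 ^ 3 * x 3 ^ 2 + x 1 * x 2 ^ 2 * x 3 ^ 3 := by
  rw [eval_msymm, sum321]
  simp [R321, Fin.prod_univ_four]
  try ring

def R3111 : List (Fin 4 → ℕ) := [![3, 1, 1, 1], ![1, 3, 1, 1], ![1, 1, 3, 1], ![1, 1, 1, 3]]

theorem sum3111 (f : (Fin 4 → ℕ) → ℝ) : ∑ η ∈ rearr ![3, 1, 1, 1], f η = (R3111.map f).sum := by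
  rw [show rearr ![3, 1, 1, 1] = R3111.toFinset from by decide +kernel, List.sum_toFinset _ (by decide)]

theorem ev3111 (x : Fin 4 → ℝ) : eval x (msymm ![3, 1, 1, 1]) =
    x 0 ^ 3 * x 1 * x 2 * x 3 + x 0 * x 1 ^ 3 * x 2 * x 3 + x 0 * x 1 * x 2 ^ 3 * x 3 + x 0 * x 1 * x 2 * x 3 ^ 3 := by
  rw [eval_msymm, sum3111]
  simp [R3111, Fin.prod_univ_four]
  try ring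

def R222 : List (Fin 4 → ℕ) := [![2, 2, 2, 0], ![2, 2, 0, 2], ![2, 0, 2, 2], ![0, 2, 2, 2]]

theorem sum222 (f : (Fin 4 → ℕ) → ℝ) : ∑ η ∈ rearr ![2, 2, 2, 0], f η = (R222.map f).sum := by
  rw [show rearr ![2, 2, 2, 0] = R222.toFinset from by decide +kernel, List.sum_toFinset _ (by decide)]

theorem ev222 (x : Fin 4 → ℝ) : eval x (msymm ![2, 2, 2, 0]) =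
    x 0 ^ 2 * x 1 ^ 2 * x 2 ^ 2 + x 0 ^ 2 * x 1 ^ 2 * x 3 ^ 2 + x 0 ^ 2 * x 2 ^ 2 * x 3 ^ 2 + x 1 ^ 2 * x 2 ^ 2 * x 3 ^ 2 := by
  rw [eval_msymm, sum222]
  simp [R222, Fin.prod_univ_four]
  try ring

def R2211 : List (Fin 4 → ℕ) := [![2, 2, 1, 1], ![2, 1, 2, 1], ![2, 1, 1, 2], ![1, 2, 2, 1], ![1, 2, 1, 2], ![1, 1, 2, 2]]

theorem sum2211 (f : (Fin 4 → ℕ) → ℝ) : ∑ η ∈ rearr ![2, 2, 1, 1], f η = (R2211.map f).sum := by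
  rw [show rearr ![2, 2, 1, 1] = R2211.toFinset from by decide +kernel, List.sum_toFinset _ (by decide)]

theorem ev2211 (x : Fin 4 → ℝ) : eval x (msymm ![2, 2, 1, 1]) =
    x 0 ^ 2 * x 1 ^ 2 * x 2 * x 3 + x 0 ^ 2 * x 1 * x 2 ^ 2 * x 3 + x 0 ^ 2 * x 1 * x 2 * x 3 ^ 2 + x 0 * x 1 ^ 2 * x 2 ^ 2 * x 3 + x 0 * x 1 ^ 2 * x 2 * x 3 ^ 2 + x 0 * x 1 * x 2 ^ 2 * x 3 ^ 2 := by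
  rw [eval_msymm, sum2211]
  simp [R2211, Fin.prod_univ_four]
  try ring

theorem d42_0 (x : Fin 4 → ℝ) : eval x (pderiv 0 (msymm ![4, 2, 0, 0])) =
    4 * x 0 ^ 3 * x 1 ^ 2 + 4 * x 0 ^ 3 * x 2 ^ 2 + 4 * x 0 ^ 3 * x 3 ^ 2 + 2 * x 0 * x 1 ^ 4 + 2 * x 0 * x 2 ^ 4 + 2 * x 0 * x 3 ^ 4 := by
  rw [eval_d, sum42]
  simp [R42, Fin.prod_univ_four]
  try ring

theorem d42_1 (x : Fin 4 → ℝ) : eval x (pderiv 1 (msymm ![4, 2, 0, 0])) =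
    2 * x 0 ^ 4 * x 1 + 4 * x 0 ^ 2 * x 1 ^ 3 + 4 * x 1 ^ 3 * x 2 ^ 2 + 4 * x 1 ^ 3 * x 3 ^ 2 + 2 * x 1 * x 2 ^ 4 + 2 * x 1 * x 3 ^ 4 := by
  rw [eval_d, sum42]
  simp [R42, Fin.prod_univ_four]
  try ring

theorem d42_2 (x : Fin 4 → ℝ) : eval x (pderiv 2 (msymm ![4, 2, 0, 0])) =
    2 * x 0 ^ 4 * x 2 + 4 * x 0 ^ 2 * x 2 ^ 3 + 2 * x 1 ^ 4 * x 2 + 4 * x 1 ^ 2 * x 2 ^ 3 + 4 * x 2 ^ 3 * x 3 ^ 2 + 2 * x 2 * x 3 ^ 4 := by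
  rw [eval_d, sum42]
  simp [R42, Fin.prod_univ_four]
  try ring

theorem d42_3 (x : Fin 4 → ℝ) : eval x (pderiv 3 (msymm ![4, 2, 0, 0])) =
    2 * x 0 ^ 4 * x 3 + 4 * x 0 ^ 2 * x 3 ^ 3 + 2 * x 1 ^ 4 * x 3 + 4 * x 1 ^ 2 * x 3 ^ 3 + 2 * x 2 ^ 4 * x 3 + 4 * x 2 ^ 2 * x 3 ^ 3 := by
  rw [eval_d, sum42]
  simp [R42, Fin.prod_univ_four]
  try ring

theorem first42 (x : Fin 4 → ℝ) (hx : Function.Injective x) :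
    ∑ i, ∑ j ∈ Finset.univ.erase i, x i ^ 2 / (x i - x j) * eval x (pderiv i (msymm ![4, 2, 0, 0]))
      = 16 * eval x (msymm ![4, 2, 0, 0]) + 2 * eval x (msymm ![4, 1, 1, 0]) + 2 * eval x (msymm ![3, 3, 0, 0]) + 4 * eval x (msymm ![3, 2, 1, 0]) + 12 * eval x (msymm ![2, 2, 2, 0]) := by
  rw [sum_pairs]
  rw [pair_quot (eval x (pderiv 0 (msymm ![4, 2, 0, 0]))) (eval x (pderiv 1 (msymm ![4, 2, 0, 0]))) (x 0) (x 1)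
    (4 * x 0 ^ 4 * x 1 ^ 2 + 4 * x 0 ^ 4 * x 2 ^ 2 + 4 * x 0 ^ 4 * x 3 ^ 2 + 2 * x 0 ^ 3 * x 1 ^ 3 + 4 * x 0 ^ 3 * x 1 * x 2 ^ 2 + 4 * x 0 ^ 3 * x 1 * x 3 ^ 2 + 4 * x 0 ^ 2 * x 1 ^ 4 + 4 * x 0 ^ 2 * x 1 ^ 2 * x 2 ^ 2 + 4 * x 0 ^ 2 * x 1 ^ 2 * x 3 ^ 2 + 2 * x 0 ^ 2 * x 2 ^ 4 + 2 * x 0 ^ 2 * x 3 ^ 4 + 4 * x 0 * x 1 ^ 3 * x 2 ^ 2 + 4 * x 0 * x 1 ^ 3 * x 3 ^ 2 + 2 * x 0 * x 1 * x 2 ^ 4 + 2 * x 0 * x 1 * x 3 ^ 4 + 4 * x 1 ^ 4 * x 2 ^ 2 + 4 * x 1 ^ 4 * x 3 ^ 2 + 2 * x 1 ^ 2 * x 2 ^ 4 + 2 * x 1 ^ 2 * x 3 ^ 4)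
    (fun h => absurd (hx h) (by decide)) (by rw [d42_0, d42_1]; ring)]
  rw [pair_quot (eval x (pderiv 0 (msymm ![4, 2, 0, 0]))) (eval x (pderiv 2 (msymm ![4, 2, 0, 0]))) (x 0) (x 2)
    (4 * x 0 ^ 4 * x 1 ^ 2 + 4 * x 0 ^ 4 * x 2 ^ 2 + 4 * x 0 ^ 4 * x 3 ^ 2 + 4 * x 0 ^ 3 * x 1 ^ 2 * x 2 + 2 * x 0 ^ 3 * x 2 ^ 3 + 4 * x 0 ^ 3 * x 2 * x 3 ^ 2 + 2 * x 0 ^ 2 * x 1 ^ 4 + 4 * x 0 ^ 2 * x 1 ^ 2 * x 2 ^ 2 + 4 * x 0 ^ 2 * x 2 ^ 4 + 4 * x 0 ^ 2 * x 2 ^ 2 * x 3 ^ 2 + 2 * x 0 ^ 2 * x 3 ^ 4 + 2 * x 0 * x 1 ^ 4 * x 2 + 4 * x 0 * x 1 ^ 2 * x 2 ^ 3 + 4 * x 0 * x 2 ^ 3 * x 3 ^ 2 + 2 * x 0 * x 2 * x 3 ^ 4 + 2 * x 1 ^ 4 * x 2 ^ 2 + 4 * x 1 ^ 2 * x 2 ^ 4 + 4 * x 2 ^ 4 * x 3 ^ 2 + 2 * x 2 ^ 2 * x 3 ^ 4)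
    (fun h => absurd (hx h) (by decide)) (by rw [d42_0, d42_2]; ring)]
  rw [pair_quot (eval x (pderiv 0 (msymm ![4, 2, 0, 0]))) (eval x (pderiv 3 (msymm ![4, 2, 0, 0]))) (x 0) (x 3)
    (4 * x 0 ^ 4 * x 1 ^ 2 + 4 * x 0 ^ 4 * x 2 ^ 2 + 4 * x 0 ^ 4 * x 3 ^ 2 + 4 * x 0 ^ 3 * x 1 ^ 2 * x 3 + 4 * x 0 ^ 3 * x 2 ^ 2 * x 3 + 2 * x 0 ^ 3 * x 3 ^ 3 + 2 * x 0 ^ 2 * x 1 ^ 4 + 4 * x 0 ^ 2 * x 1 ^ 2 * x 3 ^ 2 + 2 * x 0 ^ 2 * x 2 ^ 4 + 4 * x 0 ^ 2 * x 2 ^ 2 * x 3 ^ 2 + 4 * x 0 ^ 2 * x 3 ^ 4 + 2 * x 0 * x 1 ^ 4 * x 3 + 4 * x 0 * x 1 ^ 2 * x 3 ^ 3 + 2 * x 0 * x 2 ^ 4 * x 3 + 4 * x 0 * x 2 ^ 2 * x 3 ^ 3 + 2 * x 1 ^ 4 * x 3 ^ 2 + 4 * x 1 ^ 2 * x 3 ^ 4 + 2 * x 2 ^ 4 * x 3 ^ 2 + 4 * x 2 ^ 2 * x 3 ^ 4)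
    (fun h => absurd (hx h) (by decide)) (by rw [d42_0, d42_3]; ring)]
  rw [pair_quot (eval x (pderiv 1 (msymm ![4, 2, 0, 0]))) (eval x (pderiv 2 (msymm ![4, 2, 0, 0]))) (x 1) (x 2)
    (2 * x 0 ^ 4 * x 1 ^ 2 + 2 * x 0 ^ 4 * x 1 * x 2 + 2 * x 0 ^ 4 * x 2 ^ 2 + 4 * x 0 ^ 2 * x 1 ^ 4 + 4 * x 0 ^ 2 * x 1 ^ 3 * x 2 + 4 * x 0 ^ 2 * x 1 ^ 2 * x 2 ^ 2 + 4 * x 0 ^ 2 * x 1 * x 2 ^ 3 + 4 * x 0 ^ 2 * x 2 ^ 4 + 4 * x 1 ^ 4 * x 2 ^ 2 + 4 * x 1 ^ 4 * x 3 ^ 2 + 2 * x 1 ^ 3 * x 2 ^ 3 + 4 * x 1 ^ 3 * x 2 * x 3 ^ 2 + 4 * x 1 ^ 2 * x 2 ^ 4 + 4 * x 1 ^ 2 * x 2 ^ 2 * x 3 ^ 2 + 2 * x 1 ^ 2 * x 3 ^ 4 + 4 * x 1 * x 2 ^ 3 * x 3 ^ 2 + 2 * x 1 * x 2 * x 3 ^ 4 + 4 * x 2 ^ 4 * x 3 ^ 2 + 2 * x 2 ^ 2 * x 3 ^ 4)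
    (fun h => absurd (hx h) (by decide)) (by rw [d42_1, d42_2]; ring)]
  rw [pair_quot (eval x (pderiv 1 (msymm ![4, 2, 0, 0]))) (eval x (pderiv 3 (msymm ![4, 2, 0, 0]))) (x 1) (x 3)
    (2 * x 0 ^ 4 * x 1 ^ 2 + 2 * x 0 ^ 4 * x 1 * x 3 + 2 * x 0 ^ 4 * x 3 ^ 2 + 4 * x 0 ^ 2 * x 1 ^ 4 + 4 * x 0 ^ 2 * x 1 ^ 3 * x 3 + 4 * x 0 ^ 2 * x 1 ^ 2 * x 3 ^ 2 + 4 * x 0 ^ 2 * x 1 * x 3 ^ 3 + 4 * x 0 ^ 2 * x 3 ^ 4 + 4 * x 1 ^ 4 * x 2 ^ 2 + 4 * x 1 ^ 4 * x 3 ^ 2 + 4 * x 1 ^ 3 * x 2 ^ 2 * x 3 + 2 * x 1 ^ 3 * x 3 ^ 3 + 2 * x 1 ^ 2 * x 2 ^ 4 + 4 * x 1 ^ 2 * x 2 ^ 2 * x 3 ^ 2 + 4 * x 1 ^ 2 * x 3 ^ 4 + 2 * x 1 * x 2 ^ 4 * x 3 + 4 * x 1 * x 2 ^ 2 * x 3 ^ 3 + 2 * x 2 ^ 4 * x 3 ^ 2 + 4 * x 2 ^ 2 * x 3 ^ 4)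
    (fun h => absurd (hx h) (by decide)) (by rw [d42_1, d42_3]; ring)]
  rw [pair_quot (eval x (pderiv 2 (msymm ![4, 2, 0, 0]))) (eval x (pderiv 3 (msymm ![4, 2, 0, 0]))) (x 2) (x 3)
    (2 * x 0 ^ 4 * x 2 ^ 2 + 2 * x 0 ^ 4 * x 2 * x 3 + 2 * x 0 ^ 4 * x 3 ^ 2 + 4 * x 0 ^ 2 * x 2 ^ 4 + 4 * x 0 ^ 2 * x 2 ^ 3 * x 3 + 4 * x 0 ^ 2 * x 2 ^ 2 * x 3 ^ 2 + 4 * x 0 ^ 2 * x 2 * x 3 ^ 3 + 4 * x 0 ^ 2 * x 3 ^ 4 + 2 * x 1 ^ 4 * x 2 ^ 2 + 2 * x 1 ^ 4 * x 2 * x 3 + 2 * x 1 ^ 4 * x 3 ^ 2 + 4 * x 1 ^ 2 * x 2 ^ 4 + 4 * x 1 ^ 2 * x 2 ^ 3 * x 3 + 4 * x 1 ^ 2 * x 2 ^ 2 * x 3 ^ 2 + 4 * x 1 ^ 2 * x 2 * x 3 ^ 3 + 4 * x 1 ^ 2 * x 3 ^ 4 + 4 * x 2 ^ 4 * x 3 ^ 2 + 2 * x 2 ^ 3 * x 3 ^ 3 + 4 * x 2 ^ 2 * x 3 ^ 4)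
    (fun h => absurd (hx h) (by decide)) (by rw [d42_2, d42_3]; ring)]
  rw [ev42, ev411, ev33, ev321, ev222]
  ring

theorem d411_0 (x : Fin 4 → ℝ) : eval x (pderiv 0 (msymm ![4, 1, 1, 0])) =
    4 * x 0 ^ 3 * x 1 * x 2 + 4 * x 0 ^ 3 * x 1 * x 3 + 4 * x 0 ^ 3 * x 2 * x 3 + x 1 ^ 4 * x 2 + x 1 ^ 4 * x 3 + x 1 * x 2 ^ 4 + x 1 * x 3 ^ 4 + x 2 ^ 4 * x 3 + x 2 * x 3 ^ 4 := by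
  rw [eval_d, sum411]
  simp [R411, Fin.prod_univ_four]
  try ring

theorem d411_1 (x : Fin 4 → ℝ) : eval x (pderiv 1 (msymm ![4, 1, 1, 0])) =
    x 0 ^ 4 * x 2 + x 0 ^ 4 * x 3 + 4 * x 0 * x 1 ^ 3 * x 2 + 4 * x 0 * x 1 ^ 3 * x 3 + x 0 * x 2 ^ 4 + x 0 * x 3 ^ 4 + 4 * x 1 ^ 3 * x 2 * x 3 + x 2 ^ 4 * x 3 + x 2 * x 3 ^ 4 := by
  rw [eval_d, sum411]
  simp [R411, Fin.prod_univ_four]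
  try ring

theorem d411_2 (x : Fin 4 → ℝ) : eval x (pderiv 2 (msymm ![4, 1, 1, 0])) =
    x 0 ^ 4 * x 1 + x 0 ^ 4 * x 3 + x 0 * x 1 ^ 4 + 4 * x 0 * x 1 * x 2 ^ 3 + 4 * x 0 * x 2 ^ 3 * x 3 + x 0 * x 3 ^ 4 + x 1 ^ 4 * x 3 + 4 * x 1 * x 2 ^ 3 * x 3 + x 1 * x 3 ^ 4 := by
  rw [eval_d, sum411]
  simp [R411, Fin.prod_univ_four]
  try ring

theorem d411_3 (x : Fin 4 → ℝ) : eval x (pderiv 3 (msymm ![4, 1, 1, 0])) =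
    x 0 ^ 4 * x 1 + x 0 ^ 4 * x 2 + x 0 * x 1 ^ 4 + 4 * x 0 * x 1 * x 3 ^ 3 + x 0 * x 2 ^ 4 + 4 * x 0 * x 2 * x 3 ^ 3 + x 1 ^ 4 * x 2 + x 1 * x 2 ^ 4 + 4 * x 1 * x 2 * x 3 ^ 3 := by
  rw [eval_d, sum411]
  simp [R411, Fin.prod_univ_four]
  try ring

theorem first411 (x : Fin 4 → ℝ) (hx : Function.Injective x) :
    ∑ i, ∑ j ∈ Finset.univ.erase i, x i ^ 2 / (x i - x j) * eval x (pderiv i (msymm ![4, 1, 1, 0]))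
      = 15 * eval x (msymm ![4, 1, 1, 0]) + 3 * eval x (msymm ![3, 2, 1, 0]) + 12 * eval x (msymm ![3, 1, 1, 1]) + 4 * eval x (msymm ![2, 2, 1, 1]) := by
  rw [sum_pairs]
  rw [pair_quot (eval x (pderiv 0 (msymm ![4, 1, 1, 0]))) (eval x (pderiv 1 (msymm ![4, 1, 1, 0]))) (x 0) (x 1)
    (4 * x 0 ^ 4 * x 1 * x 2 + 4 * x 0 ^ 4 * x 1 * x 3 + 4 * x 0 ^ 4 * x 2 * x 3 + 3 * x 0 ^ 3 * x 1 ^ 2 * x 2 + 3 * x 0 ^ 3 * x 1 ^ 2 * x 3 + 4 * x 0 ^ 3 * x 1 * x 2 * x 3 + 3 * x 0 ^ 2 * x 1 ^ 3 * x 2 + 3 * x 0 ^ 2 * x 1 ^ 3 * x 3 + 4 * x 0 ^ 2 * x 1 ^ 2 * x 2 * x 3 + 4 * x 0 * x 1 ^ 4 * x 2 + 4 * x 0 * x 1 ^ 4 * x 3 + 4 * x 0 * x 1 ^ 3 * x 2 * x 3 + x 0 * x 1 * x 2 ^ 4 + x 0 * x 1 * x 3 ^ 4 + x 0 * x 2 ^ 4 * x 3 + x 0 * x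 2 * x 3 ^ 4 + 4 * x 1 ^ 4 * x 2 * x 3 + x 1 * x 2 ^ 4 * x 3 + x 1 * x 2 * x 3 ^ 4)
    (fun h => absurd (hx h) (by decide)) (by rw [d411_0, d411_1]; ring)]
  rw [pair_quot (eval x (pderiv 0 (msymm ![4, 1, 1, 0]))) (eval x (pderiv 2 (msymm ![4, 1, 1, 0]))) (x 0) (x 2)
    (4 * x 0 ^ 4 * x 1 * x 2 + 4 * x 0 ^ 4 * x 1 * x 3 + 4 * x 0 ^ 4 * x 2 * x 3 + 3 * x 0 ^ 3 * x 1 * x 2 ^ 2 + 4 * x 0 ^ 3 * x 1 * x 2 * x 3 + 3 * x 0 ^ 3 * x 2 ^ 2 * x 3 + 3 * x 0 ^ 2 * x 1 * x 2 ^ 3 + 4 * x 0 ^ 2 * x 1 * x 2 ^ 2 * x 3 + 3 * x 0 ^ 2 * x 2 ^ 3 * x 3 + x 0 * x 1 ^ 4 * x 2 + x 0 * x 1 ^ 4 * x 3 + 4 * x 0 * x 1 * x 2 ^ 4 + 4 * x 0 * x 1 * x 2 ^ 3 * x 3 + x 0 * x 1 * x 3 ^ 4 + 4 * x 0 * x 2 ^ 4 * x 3 + x 0 * x 2 * x 3 ^ 4 + x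 1 ^ 4 * x 2 * x 3 + 4 * x 1 * x 2 ^ 4 * x 3 + x 1 * x 2 * x 3 ^ 4)
    (fun h => absurd (hx h) (by decide)) (by rw [d411_0, d411_2]; ring)]
  rw [pair_quot (eval x (pderiv 0 (msymm ![4, 1, 1, 0]))) (eval x (pderiv 3 (msymm ![4, 1, 1, 0]))) (x 0) (x 3)
    (4 * x 0 ^ 4 * x 1 * x 2 + 4 * x 0 ^ 4 * x 1 * x 3 + 4 * x 0 ^ 4 * x 2 * x 3 + 4 * x 0 ^ 3 * x 1 * x 2 * x 3 + 3 * x 0 ^ 3 * x 1 * x 3 ^ 2 + 3 * x 0 ^ 3 * x 2 * x 3 ^ 2 + 4 * x 0 ^ 2 * x 1 * x 2 * x 3 ^ 2 + 3 * x 0 ^ 2 * x 1 * x 3 ^ 3 + 3 * x 0 ^ 2 * x 2 * x 3 ^ 3 + x 0 * x 1 ^ 4 * x 2 + x 0 * x 1 ^ 4 * x 3 + x 0 * x 1 * x 2 ^ 4 + 4 * x 0 * x 1 * x 2 * x 3 ^ 3 + 4 * x 0 * x 1 * x 3 ^ 4 + x 0 * x 2 ^ 4 * x 3 + 4 * x 0 * x 2 * x 3 ^ 4 + x 1 ^ 4 * x 2 * x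 3 + x 1 * x 2 ^ 4 * x 3 + 4 * x 1 * x 2 * x 3 ^ 4)
    (fun h => absurd (hx h) (by decide)) (by rw [d411_0, d411_3]; ring)]
  rw [pair_quot (eval x (pderiv 1 (msymm ![4, 1, 1, 0]))) (eval x (pderiv 2 (msymm ![4, 1, 1, 0]))) (x 1) (x 2)
    (x 0 ^ 4 * x 1 * x 2 + x 0 ^ 4 * x 1 * x 3 + x 0 ^ 4 * x 2 * x 3 + 4 * x 0 * x 1 ^ 4 * x 2 + 4 * x 0 * x 1 ^ 4 * x 3 + 3 * x 0 * x 1 ^ 3 * x 2 ^ 2 + 4 * x 0 * x 1 ^ 3 * x 2 * x 3 + 3 * x 0 * x 1 ^ 2 * x 2 ^ 3 + 4 * x 0 * x 1 ^ 2 * x 2 ^ 2 * x 3 + 4 * x 0 * x 1 * x 2 ^ 4 + 4 * x 0 * x 1 * x 2 ^ 3 * x 3 + x 0 * x 1 * x 3 ^ 4 + 4 * x 0 * x 2 ^ 4 * x 3 + x 0 * x 2 * x 3 ^ 4 + 4 * x 1 ^ 4 * x 2 * x 3 + 3 * x 1 ^ 3 * x 2 ^ 2 * x 3 + 3 * x 1 ^ 2 * x 2 ^ 3 * x 3 + 4 * x 1 * x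 2 ^ 4 * x 3 + x 1 * x 2 * x 3 ^ 4)
    (fun h => absurd (hx h) (by decide)) (by rw [d411_1, d411_2]; ring)]
  rw [pair_quot (eval x (pderiv 1 (msymm ![4, 1, 1, 0]))) (eval x (pderiv 3 (msymm ![4, 1, 1, 0]))) (x 1) (x 3)
    (x 0 ^ 4 * x 1 * x 2 + x 0 ^ 4 * x 1 * x 3 + x 0 ^ 4 * x 2 * x 3 + 4 * x 0 * x 1 ^ 4 * x 2 + 4 * x 0 * x 1 ^ 4 * x 3 + 4 * x 0 * x 1 ^ 3 * x 2 * x 3 + 3 * x 0 * x 1 ^ 3 * x 3 ^ 2 + 4 * x 0 * x 1 ^ 2 * x 2 * x 3 ^ 2 + 3 * x 0 * x 1 ^ 2 * x 3 ^ 3 + x 0 * x 1 * x 2 ^ 4 + 4 * x 0 * x 1 * x 2 * x 3 ^ 3 + 4 * x 0 * x 1 * x 3 ^ 4 + x 0 * x 2 ^ 4 * x 3 + 4 * x 0 * x 2 * x 3 ^ 4 + 4 * x 1 ^ 4 * x 2 * x 3 + 3 * x 1 ^ 3 * x 2 * x 3 ^ 2 + 3 * x 1 ^ 2 * x 2 * x 3 ^ 3 + x 1 * x 2 ^ 4 * x 3 + 4 * x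 1 * x 2 * x 3 ^ 4)
    (fun h => absurd (hx h) (by decide)) (by rw [d411_1, d411_3]; ring)]
  rw [pair_quot (eval x (pderiv 2 (msymm ![4, 1, 1, 0]))) (eval x (pderiv 3 (msymm ![4, 1, 1, 0]))) (x 2) (x 3)
    (x 0 ^ 4 * x 1 * x 2 + x 0 ^ 4 * x 1 * x 3 + x 0 ^ 4 * x 2 * x 3 + x 0 * x 1 ^ 4 * x 2 + x 0 * x 1 ^ 4 * x 3 + 4 * x 0 * x 1 * x 2 ^ 4 + 4 * x 0 * x 1 * x 2 ^ 3 * x 3 + 4 * x 0 * x 1 * x 2 ^ 2 * x 3 ^ 2 + 4 * x 0 * x 1 * x 2 * x 3 ^ 3 + 4 * x 0 * x 1 * x 3 ^ 4 + 4 * x 0 * x 2 ^ 4 * x 3 + 3 * x 0 * x 2 ^ 3 * x 3 ^ 2 + 3 * x 0 * x 2 ^ 2 * x 3 ^ 3 + 4 * x 0 * x 2 * x 3 ^ 4 + x 1 ^ 4 * x 2 * x 3 + 4 * x 1 * x 2 ^ 4 * x 3 + 3 * x 1 * x 2 ^ 3 * x 3 ^ 2 + 3 * x 1 * x 2 ^ 2 * x 3 ^ 3 + 4 * x 1 * x 2 * x 3 ^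 4)
    (fun h => absurd (hx h) (by decide)) (by rw [d411_2, d411_3]; ring)]
  rw [ev411, ev321, ev3111, ev2211]
  ring

theorem d33_0 (x : Fin 4 → ℝ) : eval x (pderiv 0 (msymm ![3, 3, 0, 0])) =
    3 * x 0 ^ 2 * x 1 ^ 3 + 3 * x 0 ^ 2 * x 2 ^ 3 + 3 * x 0 ^ 2 * x 3 ^ 3 := by
  rw [eval_d, sum33]
  simp [R33, Fin.prod_univ_four]
  try ring

theorem d33_1 (x : Fin 4 → ℝ) : eval x (pderiv 1 (msymm ![3, 3, 0, 0])) =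
    3 * x 0 ^ 3 * x 1 ^ 2 + 3 * x 1 ^ 2 * x 2 ^ 3 + 3 * x 1 ^ 2 * x 3 ^ 3 := by
  rw [eval_d, sum33]
  simp [R33, Fin.prod_univ_four]
  try ring

theorem d33_2 (x : Fin 4 → ℝ) : eval x (pderiv 2 (msymm ![3, 3, 0, 0])) =
    3 * x 0 ^ 3 * x 2 ^ 2 + 3 * x 1 ^ 3 * x 2 ^ 2 + 3 * x 2 ^ 2 * x 3 ^ 3 := by
  rw [eval_d, sum33]
  simp [R33, Fin.prod_univ_four]
  try ring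

theorem d33_3 (x : Fin 4 → ℝ) : eval x (pderiv 3 (msymm ![3, 3, 0, 0])) =
    3 * x 0 ^ 3 * x 3 ^ 2 + 3 * x 1 ^ 3 * x 3 ^ 2 + 3 * x 2 ^ 3 * x 3 ^ 2 := by
  rw [eval_d, sum33]
  simp [R33, Fin.prod_univ_four]
  try ring

theorem first33 (x : Fin 4 → ℝ) (hx : Function.Injective x) :
    ∑ i, ∑ j ∈ Finset.univ.erase i, x i ^ 2 / (x i - x j) * eval x (pderiv i (msymm ![3, 3, 0, 0]))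
      = 15 * eval x (msymm ![3, 3, 0, 0]) + 3 * eval x (msymm ![3, 2, 1, 0]) := by
  rw [sum_pairs]
  rw [pair_quot (eval x (pderiv 0 (msymm ![3, 3, 0, 0]))) (eval x (pderiv 1 (msymm ![3, 3, 0, 0]))) (x 0) (x 1)
    (3 * x 0 ^ 3 * x 1 ^ 3 + 3 * x 0 ^ 3 * x 2 ^ 3 + 3 * x 0 ^ 3 * x 3 ^ 3 + 3 * x 0 ^ 2 * x 1 * x 2 ^ 3 + 3 * x 0 ^ 2 * x 1 * x 3 ^ 3 + 3 * x 0 * x 1 ^ 2 * x 2 ^ 3 + 3 * x 0 * x 1 ^ 2 * x 3 ^ 3 + 3 * x 1 ^ 3 * x 2 ^ 3 + 3 * x 1 ^ 3 * x 3 ^ 3)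
    (fun h => absurd (hx h) (by decide)) (by rw [d33_0, d33_1]; ring)]
  rw [pair_quot (eval x (pderiv 0 (msymm ![3, 3, 0, 0]))) (eval x (pderiv 2 (msymm ![3, 3, 0, 0]))) (x 0) (x 2)
    (3 * x 0 ^ 3 * x 1 ^ 3 + 3 * x 0 ^ 3 * x 2 ^ 3 + 3 * x 0 ^ 3 * x 3 ^ 3 + 3 * x 0 ^ 2 * x 1 ^ 3 * x 2 + 3 * x 0 ^ 2 * x 2 * x 3 ^ 3 + 3 * x 0 * x 1 ^ 3 * x 2 ^ 2 + 3 * x 0 * x 2 ^ 2 * x 3 ^ 3 + 3 * x 1 ^ 3 * x 2 ^ 3 + 3 * x 2 ^ 3 * x 3 ^ 3)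
    (fun h => absurd (hx h) (by decide)) (by rw [d33_0, d33_2]; ring)]
  rw [pair_quot (eval x (pderiv 0 (msymm ![3, 3, 0, 0]))) (eval x (pderiv 3 (msymm ![3, 3, 0, 0]))) (x 0) (x 3)
    (3 * x 0 ^ 3 * x 1 ^ 3 + 3 * x 0 ^ 3 * x 2 ^ 3 + 3 * x 0 ^ 3 * x 3 ^ 3 + 3 * x 0 ^ 2 * x 1 ^ 3 * x 3 + 3 * x 0 ^ 2 * x 2 ^ 3 * x 3 + 3 * x 0 * x 1 ^ 3 * x 3 ^ 2 + 3 * x 0 * x 2 ^ 3 * x 3 ^ 2 + 3 * x 1 ^ 3 * x 3 ^ 3 + 3 * x 2 ^ 3 * x 3 ^ 3)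
    (fun h => absurd (hx h) (by decide)) (by rw [d33_0, d33_3]; ring)]
  rw [pair_quot (eval x (pderiv 1 (msymm ![3, 3, 0, 0]))) (eval x (pderiv 2 (msymm ![3, 3, 0, 0]))) (x 1) (x 2)
    (3 * x 0 ^ 3 * x 1 ^ 3 + 3 * x 0 ^ 3 * x 1 ^ 2 * x 2 + 3 * x 0 ^ 3 * x 1 * x 2 ^ 2 + 3 * x 0 ^ 3 * x 2 ^ 3 + 3 * x 1 ^ 3 * x 2 ^ 3 + 3 * x 1 ^ 3 * x 3 ^ 3 + 3 * x 1 ^ 2 * x 2 * x 3 ^ 3 + 3 * x 1 * x 2 ^ 2 * x 3 ^ 3 + 3 * x 2 ^ 3 * x 3 ^ 3)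
    (fun h => absurd (hx h) (by decide)) (by rw [d33_1, d33_2]; ring)]
  rw [pair_quot (eval x (pderiv 1 (msymm ![3, 3, 0, 0]))) (eval x (pderiv 3 (msymm ![3, 3, 0, 0]))) (x 1) (x 3)
    (3 * x 0 ^ 3 * x 1 ^ 3 + 3 * x 0 ^ 3 * x 1 ^ 2 * x 3 + 3 * x 0 ^ 3 * x 1 * x 3 ^ 2 + 3 * x 0 ^ 3 * x 3 ^ 3 + 3 * x 1 ^ 3 * x 2 ^ 3 + 3 * x 1 ^ 3 * x 3 ^ 3 + 3 * x 1 ^ 2 * x 2 ^ 3 * x 3 + 3 * x 1 * x 2 ^ 3 * x 3 ^ 2 + 3 * x 2 ^ 3 * x 3 ^ 3)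
    (fun h => absurd (hx h) (by decide)) (by rw [d33_1, d33_3]; ring)]
  rw [pair_quot (eval x (pderiv 2 (msymm ![3, 3, 0, 0]))) (eval x (pderiv 3 (msymm ![3, 3, 0, 0]))) (x 2) (x 3)
    (3 * x 0 ^ 3 * x 2 ^ 3 + 3 * x 0 ^ 3 * x 2 ^ 2 * x 3 + 3 * x 0 ^ 3 * x 2 * x 3 ^ 2 + 3 * x 0 ^ 3 * x 3 ^ 3 + 3 * x 1 ^ 3 * x 2 ^ 3 + 3 * x 1 ^ 3 * x 2 ^ 2 * x 3 + 3 * x 1 ^ 3 * x 2 * x 3 ^ 2 + 3 * x 1 ^ 3 * x 3 ^ 3 + 3 * x 2 ^ 3 * x 3 ^ 3)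
    (fun h => absurd (hx h) (by decide)) (by rw [d33_2, d33_3]; ring)]
  rw [ev33, ev321]
  ring

theorem d321_0 (x : Fin 4 → ℝ) : eval x (pderiv 0 (msymm ![3, 2, 1, 0])) =
    3 * x 0 ^ 2 * x 1 ^ 2 * x 2 + 3 * x 0 ^ 2 * x 1 ^ 2 * x 3 + 3 * x 0 ^ 2 * x 1 * x 2 ^ 2 + 3 * x 0 ^ 2 * x 1 * x 3 ^ 2 + 3 * x 0 ^ 2 * x 2 ^ 2 * x 3 + 3 * x 0 ^ 2 * x 2 * x 3 ^ 2 + 2 * x 0 * x 1 ^ 3 * x 2 + 2 * x 0 * x 1 ^ 3 * x 3 + 2 * x 0 * x 1 * x 2 ^ 3 + 2 * x 0 * x 1 * x 3 ^ 3 + 2 * x 0 * x 2 ^ 3 * x 3 + 2 * x 0 * x 2 * x 3 ^ 3 + x 1 ^ 3 * x 2 ^ 2 + x 1 ^ 3 * x 3 ^ 2 + x 1 ^ 2 * x 2 ^ 3 + x 1 ^ 2 * x 3 ^ 3 + x 2 ^ 3 * x 3 ^ 2 + x 2 ^ 2 * x 3 ^ 3 := by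
  rw [eval_d, sum321]
  simp [R321, Fin.prod_univ_four]
  try ring

theorem d321_1 (x : Fin 4 → ℝ) : eval x (pderiv 1 (msymm ![3, 2, 1, 0])) =
    2 * x 0 ^ 3 * x 1 * x 2 + 2 * x 0 ^ 3 * x 1 * x 3 + x 0 ^ 3 * x 2 ^ 2 + x 0 ^ 3 * x 3 ^ 2 + 3 * x 0 ^ 2 * x 1 ^ 2 * x 2 + 3 * x 0 ^ 2 * x 1 ^ 2 * x 3 + x 0 ^ 2 * x 2 ^ 3 + x 0 ^ 2 * x 3 ^ 3 + 3 * x 0 * x 1 ^ 2 * x 2 ^ 2 + 3 * x 0 * x 1 ^ 2 * x 3 ^ 2 + 2 * x 0 * x 1 * x 2 ^ 3 + 2 * x 0 * x 1 * x 3 ^ 3 + 3 * x 1 ^ 2 * x 2 ^ 2 * x 3 + 3 * x 1 ^ 2 * x 2 * x 3 ^ 2 + 2 * x 1 * x 2 ^ 3 * x 3 + 2 * x 1 * x 2 * x 3 ^ 3 + x 2 ^ 3 * x 3 ^ 2 + x 2 ^ 2 * x 3 ^ 3 := by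
  rw [eval_d, sum321]
  simp [R321, Fin.prod_univ_four]
  try ring

theorem d321_2 (x : Fin 4 → ℝ) : eval x (pderiv 2 (msymm ![3, 2, 1, 0])) =
    x 0 ^ 3 * x 1 ^ 2 + 2 * x 0 ^ 3 * x 1 * x 2 + 2 * x 0 ^ 3 * x 2 * x 3 + x 0 ^ 3 * x 3 ^ 2 + x 0 ^ 2 * x 1 ^ 3 + 3 * x 0 ^ 2 * x 1 * x 2 ^ 2 + 3 * x 0 ^ 2 * x 2 ^ 2 * x 3 + x 0 ^ 2 * x 3 ^ 3 + 2 * x 0 * x 1 ^ 3 * x 2 + 3 * x 0 * x 1 ^ 2 * x 2 ^ 2 + 3 * x 0 * x 2 ^ 2 * x 3 ^ 2 + 2 * x 0 * x 2 * x 3 ^ 3 + 2 * x 1 ^ 3 * x 2 * x 3 + x 1 ^ 3 * x 3 ^ 2 + 3 * x 1 ^ 2 * x 2 ^ 2 * x 3 + x 1 ^ 2 * x 3 ^ 3 + 3 * x 1 * x 2 ^ 2 * x 3 ^ 2 + 2 * x 1 * x 2 * x 3 ^ 3 := by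
  rw [eval_d, sum321]
  simp [R321, Fin.prod_univ_four]
  try ring

theorem d321_3 (x : Fin 4 → ℝ) : eval x (pderiv 3 (msymm ![3, 2, 1, 0])) =
    x 0 ^ 3 * x 1 ^ 2 + 2 * x 0 ^ 3 * x 1 * x 3 + x 0 ^ 3 * x 2 ^ 2 + 2 * x 0 ^ 3 * x 2 * x 3 + x 0 ^ 2 * x 1 ^ 3 + 3 * x 0 ^ 2 * x 1 * x 3 ^ 2 + x 0 ^ 2 * x 2 ^ 3 + 3 * x 0 ^ 2 * x 2 * x 3 ^ 2 + 2 * x 0 * x 1 ^ 3 * x 3 + 3 * x 0 * x 1 ^ 2 * x 3 ^ 2 + 2 * x 0 * x 2 ^ 3 * x 3 + 3 * x 0 * x 2 ^ 2 * x 3 ^ 2 + x 1 ^ 3 * x 2 ^ 2 + 2 * x 1 ^ 3 * x 2 * x 3 + x 1 ^ 2 * x 2 ^ 3 + 3 * x 1 ^ 2 * x 2 * x 3 ^ 2 + 2 * x 1 * x 2 ^ 3 * x 3 + 3 * x 1 * x 2 ^ 2 * x 3 ^ 2 := by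
  rw [eval_d, sum321]
  simp [R321, Fin.prod_univ_four]
  try ring

theorem first321 (x : Fin 4 → ℝ) (hx : Function.Injective x) :
    ∑ i, ∑ j ∈ Finset.univ.erase i, x i ^ 2 / (x i - x j) * eval x (pderiv i (msymm ![3, 2, 1, 0]))
      = 14 * eval x (msymm ![3, 2, 1, 0]) + 6 * eval x (msymm ![3, 1, 1, 1]) + 6 * eval x (msymm ![2, 2, 2, 0]) + 12 * eval x (msymm ![2, 2, 1, 1]) := by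
  rw [sum_pairs]
  rw [pair_quot (eval x (pderiv 0 (msymm ![3, 2, 1, 0]))) (eval x (pderiv 1 (msymm ![3, 2, 1, 0]))) (x 0) (x 1)
    (3 * x 0 ^ 3 * x 1 ^ 2 * x 2 + 3 * x 0 ^ 3 * x 1 ^ 2 * x 3 + 3 * x 0 ^ 3 * x 1 * x 2 ^ 2 + 3 * x 0 ^ 3 * x 1 * x 3 ^ 2 + 3 * x 0 ^ 3 * x 2 ^ 2 * x 3 + 3 * x 0 ^ 3 * x 2 * x 3 ^ 2 + 3 * x 0 ^ 2 * x 1 ^ 3 * x 2 + 3 * x 0 ^ 2 * x 1 ^ 3 * x 3 + 2 * x 0 ^ 2 * x 1 ^ 2 * x 2 ^ 2 + 2 * x 0 ^ 2 * x 1 ^ 2 * x 3 ^ 2 + 2 * x 0 ^ 2 * x 1 * x 2 ^ 3 + 3 * x 0 ^ 2 * x 1 * x 2 ^ 2 * x 3 + 3 * x 0 ^ 2 * x 1 * x 2 * x 3 ^ 2 + 2 * x 0 ^ 2 * x 1 * x 3 ^ 3 + 2 * x 0 ^ 2 * x 2 ^ 3 * x 3 + 2 * x 0 ^ 2 * x 2 * x 3 ^ 3 + 3 * x 0 * x 1 ^ 3 * x 2 ^ 2 + 3 * x 0 * x 1 ^ 3 * x 3 ^ 2 + 2 * x 0 * x 1 ^ 2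 * x 2 ^ 3 + 3 * x 0 * x 1 ^ 2 * x 2 ^ 2 * x 3 + 3 * x 0 * x 1 ^ 2 * x 2 * x 3 ^ 2 + 2 * x 0 * x 1 ^ 2 * x 3 ^ 3 + 2 * x 0 * x 1 * x 2 ^ 3 * x 3 + 2 * x 0 * x 1 * x 2 * x 3 ^ 3 + x 0 * x 2 ^ 3 * x 3 ^ 2 + x 0 * x 2 ^ 2 * x 3 ^ 3 + 3 * x 1 ^ 3 * x 2 ^ 2 * x 3 + 3 * x 1 ^ 3 * x 2 * x 3 ^ 2 + 2 * x 1 ^ 2 * x 2 ^ 3 * x 3 + 2 * x 1 ^ 2 * x 2 * x 3 ^ 3 + x 1 * x 2 ^ 3 * x 3 ^ 2 + x 1 * x 2 ^ 2 * x 3 ^ 3)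
    (fun h => absurd (hx h) (by decide)) (by rw [d321_0, d321_1]; ring)]
  rw [pair_quot (eval x (pderiv 0 (msymm ![3, 2, 1, 0]))) (eval x (pderiv 2 (msymm ![3, 2, 1, 0]))) (x 0) (x 2)
    (3 * x 0 ^ 3 * x 1 ^ 2 * x 2 + 3 * x 0 ^ 3 * x 1 ^ 2 * x 3 + 3 * x 0 ^ 3 * x 1 * x 2 ^ 2 + 3 * x 0 ^ 3 * x 1 * x 3 ^ 2 + 3 * x 0 ^ 3 * x 2 ^ 2 * x 3 + 3 * x 0 ^ 3 * x 2 * x 3 ^ 2 + 2 * x 0 ^ 2 * x 1 ^ 3 * x 2 + 2 * x 0 ^ 2 * x 1 ^ 3 * x 3 + 2 * x 0 ^ 2 * x 1 ^ 2 * x 2 ^ 2 + 3 * x 0 ^ 2 * x 1 ^ 2 * x 2 * x 3 + 3 * x 0 ^ 2 * x 1 * x 2 ^ 3 + 3 * x 0 ^ 2 * x 1 * x 2 * x 3 ^ 2 + 2 * x 0 ^ 2 * x 1 * x 3 ^ 3 + 3 * x 0 ^ 2 * x 2 ^ 3 * x 3 + 2 * x 0 ^ 2 * x 2 ^ 2 * x 3 ^ 2 + 2 * x 0 ^ 2 * x 2 * x 3 ^ 3 + 2 * x 0 * x 1 ^ 3 * x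 2 ^ 2 + 2 * x 0 * x 1 ^ 3 * x 2 * x 3 + x 0 * x 1 ^ 3 * x 3 ^ 2 + 3 * x 0 * x 1 ^ 2 * x 2 ^ 3 + 3 * x 0 * x 1 ^ 2 * x 2 ^ 2 * x 3 + x 0 * x 1 ^ 2 * x 3 ^ 3 + 3 * x 0 * x 1 * x 2 ^ 2 * x 3 ^ 2 + 2 * x 0 * x 1 * x 2 * x 3 ^ 3 + 3 * x 0 * x 2 ^ 3 * x 3 ^ 2 + 2 * x 0 * x 2 ^ 2 * x 3 ^ 3 + 2 * x 1 ^ 3 * x 2 ^ 2 * x 3 + x 1 ^ 3 * x 2 * x 3 ^ 2 + 3 * x 1 ^ 2 * x 2 ^ 3 * x 3 + x 1 ^ 2 * x 2 * x 3 ^ 3 + 3 * x 1 * x 2 ^ 3 * x 3 ^ 2 + 2 * x 1 * x 2 ^ 2 * x 3 ^ 3)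
    (fun h => absurd (hx h) (by decide)) (by rw [d321_0, d321_2]; ring)]
  rw [pair_quot (eval x (pderiv 0 (msymm ![3, 2, 1, 0]))) (eval x (pderiv 3 (msymm ![3, 2, 1, 0]))) (x 0) (x 3)
    (3 * x 0 ^ 3 * x 1 ^ 2 * x 2 + 3 * x 0 ^ 3 * x 1 ^ 2 * x 3 + 3 * x 0 ^ 3 * x 1 * x 2 ^ 2 + 3 * x 0 ^ 3 * x 1 * x 3 ^ 2 + 3 * x 0 ^ 3 * x 2 ^ 2 * x 3 + 3 * x 0 ^ 3 * x 2 * x 3 ^ 2 + 2 * x 0 ^ 2 * x 1 ^ 3 * x 2 + 2 * x 0 ^ 2 * x 1 ^ 3 * x 3 + 3 * x 0 ^ 2 * x 1 ^ 2 * x 2 * x 3 + 2 * x 0 ^ 2 * x 1 ^ 2 * x 3 ^ 2 + 2 * x 0 ^ 2 * x 1 * x 2 ^ 3 + 3 * x 0 ^ 2 * x 1 * x 2 ^ 2 * x 3 + 3 * x 0 ^ 2 * x 1 * x 3 ^ 3 + 2 * x 0 ^ 2 * x 2 ^ 3 * x 3 + 2 * x 0 ^ 2 * x 2 ^ 2 * x 3 ^ 2 + 3 * x 0 ^ 2 * x 2 * x 3 ^ 3 + x 0 * x 1 ^ 3 * x 2 ^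 2 + 2 * x 0 * x 1 ^ 3 * x 2 * x 3 + 2 * x 0 * x 1 ^ 3 * x 3 ^ 2 + x 0 * x 1 ^ 2 * x 2 ^ 3 + 3 * x 0 * x 1 ^ 2 * x 2 * x 3 ^ 2 + 3 * x 0 * x 1 ^ 2 * x 3 ^ 3 + 2 * x 0 * x 1 * x 2 ^ 3 * x 3 + 3 * x 0 * x 1 * x 2 ^ 2 * x 3 ^ 2 + 2 * x 0 * x 2 ^ 3 * x 3 ^ 2 + 3 * x 0 * x 2 ^ 2 * x 3 ^ 3 + x 1 ^ 3 * x 2 ^ 2 * x 3 + 2 * x 1 ^ 3 * x 2 * x 3 ^ 2 + x 1 ^ 2 * x 2 ^ 3 * x 3 + 3 * x 1 ^ 2 * x 2 * x 3 ^ 3 + 2 * x 1 * x 2 ^ 3 * x 3 ^ 2 + 3 * x 1 * x 2 ^ 2 * x 3 ^ 3)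
    (fun h => absurd (hx h) (by decide)) (by rw [d321_0, d321_3]; ring)]
  rw [pair_quot (eval x (pderiv 1 (msymm ![3, 2, 1, 0]))) (eval x (pderiv 2 (msymm ![3, 2, 1, 0]))) (x 1) (x 2)
    (2 * x 0 ^ 3 * x 1 ^ 2 * x 2 + 2 * x 0 ^ 3 * x 1 ^ 2 * x 3 + 2 * x 0 ^ 3 * x 1 * x 2 ^ 2 + 2 * x 0 ^ 3 * x 1 * x 2 * x 3 + x 0 ^ 3 * x 1 * x 3 ^ 2 + 2 * x 0 ^ 3 * x 2 ^ 2 * x 3 + x 0 ^ 3 * x 2 * x 3 ^ 2 + 3 * x 0 ^ 2 * x 1 ^ 3 * x 2 + 3 * x 0 ^ 2 * x 1 ^ 3 * x 3 + 2 * x 0 ^ 2 * x 1 ^ 2 * x 2 ^ 2 + 3 * x 0 ^ 2 * x 1 ^ 2 * x 2 * x 3 + 3 * x 0 ^ 2 * x 1 * x 2 ^ 3 + 3 * x 0 ^ 2 * x 1 * x 2 ^ 2 * x 3 + x 0 ^ 2 * x 1 * x 3 ^ 3 + 3 * x 0 ^ 2 * x 2 ^ 3 * x 3 + x 0 ^ 2 * x 2 * x 3 ^ 3 + 3 * x 0 * x 1 ^ 3 * x 2 ^ 2 + 3 * x 0 *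 x 1 ^ 3 * x 3 ^ 2 + 3 * x 0 * x 1 ^ 2 * x 2 ^ 3 + 3 * x 0 * x 1 ^ 2 * x 2 * x 3 ^ 2 + 2 * x 0 * x 1 ^ 2 * x 3 ^ 3 + 3 * x 0 * x 1 * x 2 ^ 2 * x 3 ^ 2 + 2 * x 0 * x 1 * x 2 * x 3 ^ 3 + 3 * x 0 * x 2 ^ 3 * x 3 ^ 2 + 2 * x 0 * x 2 ^ 2 * x 3 ^ 3 + 3 * x 1 ^ 3 * x 2 ^ 2 * x 3 + 3 * x 1 ^ 3 * x 2 * x 3 ^ 2 + 3 * x 1 ^ 2 * x 2 ^ 3 * x 3 + 2 * x 1 ^ 2 * x 2 ^ 2 * x 3 ^ 2 + 2 * x 1 ^ 2 * x 2 * x 3 ^ 3 + 3 * x 1 * x 2 ^ 3 * x 3 ^ 2 + 2 * x 1 * x 2 ^ 2 * x 3 ^ 3)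
    (fun h => absurd (hx h) (by decide)) (by rw [d321_1, d321_2]; ring)]
  rw [pair_quot (eval x (pderiv 1 (msymm ![3, 2, 1, 0]))) (eval x (pderiv 3 (msymm ![3, 2, 1, 0]))) (x 1) (x 3)
    (2 * x 0 ^ 3 * x 1 ^ 2 * x 2 + 2 * x 0 ^ 3 * x 1 ^ 2 * x 3 + x 0 ^ 3 * x 1 * x 2 ^ 2 + 2 * x 0 ^ 3 * x 1 * x 2 * x 3 + 2 * x 0 ^ 3 * x 1 * x 3 ^ 2 + x 0 ^ 3 * x 2 ^ 2 * x 3 + 2 * x 0 ^ 3 * x 2 * x 3 ^ 2 + 3 * x 0 ^ 2 * x 1 ^ 3 * x 2 + 3 * x 0 ^ 2 * x 1 ^ 3 * x 3 + 3 * x 0 ^ 2 * x 1 ^ 2 * x 2 * x 3 + 2 * x 0 ^ 2 * x 1 ^ 2 * x 3 ^ 2 + x 0 ^ 2 * x 1 * x 2 ^ 3 + 3 * x 0 ^ 2 * x 1 * x 2 * x 3 ^ 2 + 3 * x 0 ^ 2 * x 1 * x 3 ^ 3 + x 0 ^ 2 * x 2 ^ 3 * x 3 + 3 * x 0 ^ 2 * x 2 * x 3 ^ 3 + 3 * x 0 * x 1 ^ 3 * x 2 ^ 2 + 3 * x 0 *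 x 1 ^ 3 * x 3 ^ 2 + 2 * x 0 * x 1 ^ 2 * x 2 ^ 3 + 3 * x 0 * x 1 ^ 2 * x 2 ^ 2 * x 3 + 3 * x 0 * x 1 ^ 2 * x 3 ^ 3 + 2 * x 0 * x 1 * x 2 ^ 3 * x 3 + 3 * x 0 * x 1 * x 2 ^ 2 * x 3 ^ 2 + 2 * x 0 * x 2 ^ 3 * x 3 ^ 2 + 3 * x 0 * x 2 ^ 2 * x 3 ^ 3 + 3 * x 1 ^ 3 * x 2 ^ 2 * x 3 + 3 * x 1 ^ 3 * x 2 * x 3 ^ 2 + 2 * x 1 ^ 2 * x 2 ^ 3 * x 3 + 2 * x 1 ^ 2 * x 2 ^ 2 * x 3 ^ 2 + 3 * x 1 ^ 2 * x 2 * x 3 ^ 3 + 2 * x 1 * x 2 ^ 3 * x 3 ^ 2 + 3 * x 1 * x 2 ^ 2 * x 3 ^ 3)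
    (fun h => absurd (hx h) (by decide)) (by rw [d321_1, d321_3]; ring)]
  rw [pair_quot (eval x (pderiv 2 (msymm ![3, 2, 1, 0]))) (eval x (pderiv 3 (msymm ![3, 2, 1, 0]))) (x 2) (x 3)
    (x 0 ^ 3 * x 1 ^ 2 * x 2 + x 0 ^ 3 * x 1 ^ 2 * x 3 + 2 * x 0 ^ 3 * x 1 * x 2 ^ 2 + 2 * x 0 ^ 3 * x 1 * x 2 * x 3 + 2 * x 0 ^ 3 * x 1 * x 3 ^ 2 + 2 * x 0 ^ 3 * x 2 ^ 2 * x 3 + 2 * x 0 ^ 3 * x 2 * x 3 ^ 2 + x 0 ^ 2 * x 1 ^ 3 * x 2 + x 0 ^ 2 * x 1 ^ 3 * x 3 + 3 * x 0 ^ 2 * x 1 * x 2 ^ 3 + 3 * x 0 ^ 2 * x 1 * x 2 ^ 2 * x 3 + 3 * x 0 ^ 2 * x 1 * x 2 * x 3 ^ 2 + 3 * x 0 ^ 2 * x 1 * x 3 ^ 3 + 3 * x 0 ^ 2 * x 2 ^ 3 * x 3 + 2 * x 0 ^ 2 * x 2 ^ 2 * x 3 ^ 2 + 3 * x 0 ^ 2 * x 2 * x 3 ^ 3 + 2 * x 0 * x 1 ^ 3 * x 2 ^ 2 + 2 * x 0 *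 x 1 ^ 3 * x 2 * x 3 + 2 * x 0 * x 1 ^ 3 * x 3 ^ 2 + 3 * x 0 * x 1 ^ 2 * x 2 ^ 3 + 3 * x 0 * x 1 ^ 2 * x 2 ^ 2 * x 3 + 3 * x 0 * x 1 ^ 2 * x 2 * x 3 ^ 2 + 3 * x 0 * x 1 ^ 2 * x 3 ^ 3 + 3 * x 0 * x 2 ^ 3 * x 3 ^ 2 + 3 * x 0 * x 2 ^ 2 * x 3 ^ 3 + 2 * x 1 ^ 3 * x 2 ^ 2 * x 3 + 2 * x 1 ^ 3 * x 2 * x 3 ^ 2 + 3 * x 1 ^ 2 * x 2 ^ 3 * x 3 + 2 * x 1 ^ 2 * x 2 ^ 2 * x 3 ^ 2 + 3 * x 1 ^ 2 * x 2 * x 3 ^ 3 + 3 * x 1 * x 2 ^ 3 * x 3 ^ 2 + 3 * x 1 * x 2 ^ 2 * x 3 ^ 3)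
    (fun h => absurd (hx h) (by decide)) (by rw [d321_2, d321_3]; ring)]
  rw [ev321, ev3111, ev222, ev2211]
  ring

theorem d3111_0 (x : Fin 4 → ℝ) : eval x (pderiv 0 (msymm ![3, 1, 1, 1])) =
    3 * x 0 ^ 2 * x 1 * x 2 * x 3 + x 1 ^ 3 * x 2 * x 3 + x 1 * x 2 ^ 3 * x 3 + x 1 * x 2 * x 3 ^ 3 := by
  rw [eval_d, sum3111]
  simp [R3111, Fin.prod_univ_four]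
  try ring

theorem d3111_1 (x : Fin 4 → ℝ) : eval x (pderiv 1 (msymm ![3, 1, 1, 1])) =
    x 0 ^ 3 * x 2 * x 3 + 3 * x 0 * x 1 ^ 2 * x 2 * x 3 + x 0 * x 2 ^ 3 * x 3 + x 0 * x 2 * x 3 ^ 3 := by
  rw [eval_d, sum3111]
  simp [R3111, Fin.prod_univ_four]
  try ring

theorem d3111_2 (x : Fin 4 → ℝ) : eval x (pderiv 2 (msymm ![3, 1, 1, 1])) =
    x 0 ^ 3 * x 1 * x 3 + x 0 * x 1 ^ 3 * x 3 + 3 * x 0 * x 1 * x 2 ^ 2 * x 3 + x 0 * x 1 * x 3 ^ 3 := by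
  rw [eval_d, sum3111]
  simp [R3111, Fin.prod_univ_four]
  try ring

theorem d3111_3 (x : Fin 4 → ℝ) : eval x (pderiv 3 (msymm ![3, 1, 1, 1])) =
    x 0 ^ 3 * x 1 * x 2 + x 0 * x 1 ^ 3 * x 2 + x 0 * x 1 * x 2 ^ 3 + 3 * x 0 * x 1 * x 2 * x 3 ^ 2 := by
  rw [eval_d, sum3111]
  simp [R3111, Fin.prod_univ_four]
  try ring

theorem first3111 (x : Fin 4 → ℝ) (hx : Function.Injective x) :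
    ∑ i, ∑ j ∈ Finset.univ.erase i, x i ^ 2 / (x i - x j) * eval x (pderiv i (msymm ![3, 1, 1, 1]))
      = 12 * eval x (msymm ![3, 1, 1, 1]) + 2 * eval x (msymm ![2, 2, 1, 1]) := by
  rw [sum_pairs]
  rw [pair_quot (eval x (pderiv 0 (msymm ![3, 1, 1, 1]))) (eval x (pderiv 1 (msymm ![3, 1, 1, 1]))) (x 0) (x 1)
    (3 * x 0 ^ 3 * x 1 * x 2 * x 3 + 2 * x 0 ^ 2 * x 1 ^ 2 * x 2 * x 3 + 3 * x 0 * x 1 ^ 3 * x 2 * x 3 + x 0 * x 1 * x 2 ^ 3 * x 3 + x 0 * x 1 * x 2 * x 3 ^ 3)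
    (fun h => absurd (hx h) (by decide)) (by rw [d3111_0, d3111_1]; ring)]
  rw [pair_quot (eval x (pderiv 0 (msymm ![3, 1, 1, 1]))) (eval x (pderiv 2 (msymm ![3, 1, 1, 1]))) (x 0) (x 2)
    (3 * x 0 ^ 3 * x 1 * x 2 * x 3 + 2 * x 0 ^ 2 * x 1 * x 2 ^ 2 * x 3 + x 0 * x 1 ^ 3 * x 2 * x 3 + 3 * x 0 * x 1 * x 2 ^ 3 * x 3 + x 0 * x 1 * x 2 * x 3 ^ 3)
    (fun h => absurd (hx h) (by decide)) (by rw [d3111_0, d3111_2]; ring)]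
  rw [pair_quot (eval x (pderiv 0 (msymm ![3, 1, 1, 1]))) (eval x (pderiv 3 (msymm ![3, 1, 1, 1]))) (x 0) (x 3)
    (3 * x 0 ^ 3 * x 1 * x 2 * x 3 + 2 * x 0 ^ 2 * x 1 * x 2 * x 3 ^ 2 + x 0 * x 1 ^ 3 * x 2 * x 3 + x 0 * x 1 * x 2 ^ 3 * x 3 + 3 * x 0 * x 1 * x 2 * x 3 ^ 3)
    (fun h => absurd (hx h) (by decide)) (by rw [d3111_0, d3111_3]; ring)]
  rw [pair_quot (eval x (pderiv 1 (msymm ![3, 1, 1, 1]))) (eval x (pderiv 2 (msymm ![3, 1, 1, 1]))) (x 1) (x 2)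
    (x 0 ^ 3 * x 1 * x 2 * x 3 + 3 * x 0 * x 1 ^ 3 * x 2 * x 3 + 2 * x 0 * x 1 ^ 2 * x 2 ^ 2 * x 3 + 3 * x 0 * x 1 * x 2 ^ 3 * x 3 + x 0 * x 1 * x 2 * x 3 ^ 3)
    (fun h => absurd (hx h) (by decide)) (by rw [d3111_1, d3111_2]; ring)]
  rw [pair_quot (eval x (pderiv 1 (msymm ![3, 1, 1, 1]))) (eval x (pderiv 3 (msymm ![3, 1, 1, 1]))) (x 1) (x 3)
    (x 0 ^ 3 * x 1 * x 2 * x 3 + 3 * x 0 * x 1 ^ 3 * x 2 * x 3 + 2 * x 0 * x 1 ^ 2 * x 2 * x 3 ^ 2 + x 0 * x 1 * x 2 ^ 3 * x 3 + 3 * x 0 * x 1 * x 2 * x 3 ^ 3)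
    (fun h => absurd (hx h) (by decide)) (by rw [d3111_1, d3111_3]; ring)]
  rw [pair_quot (eval x (pderiv 2 (msymm ![3, 1, 1, 1]))) (eval x (pderiv 3 (msymm ![3, 1, 1, 1]))) (x 2) (x 3)
    (x 0 ^ 3 * x 1 * x 2 * x 3 + x 0 * x 1 ^ 3 * x 2 * x 3 + 3 * x 0 * x 1 * x 2 ^ 3 * x 3 + 2 * x 0 * x 1 * x 2 ^ 2 * x 3 ^ 2 + 3 * x 0 * x 1 * x 2 * x 3 ^ 3)
    (fun h => absurd (hx h) (by decide)) (by rw [d3111_2, d3111_3]; ring)]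
  rw [ev3111, ev2211]
  ring

theorem d222_0 (x : Fin 4 → ℝ) : eval x (pderiv 0 (msymm ![2, 2, 2, 0])) =
    2 * x 0 * x 1 ^ 2 * x 2 ^ 2 + 2 * x 0 * x 1 ^ 2 * x 3 ^ 2 + 2 * x 0 * x 2 ^ 2 * x 3 ^ 2 := by
  rw [eval_d, sum222]
  simp [R222, Fin.prod_univ_four]
  try ring

theorem d222_1 (x : Fin 4 → ℝ) : eval x (pderiv 1 (msymm ![2, 2, 2, 0])) =
    2 * x 0 ^ 2 * x 1 * x 2 ^ 2 + 2 * x 0 ^ 2 * x 1 * x 3 ^ 2 + 2 * x 1 * x 2 ^ 2 * x 3 ^ 2 := by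
  rw [eval_d, sum222]
  simp [R222, Fin.prod_univ_four]
  try ring

theorem d222_2 (x : Fin 4 → ℝ) : eval x (pderiv 2 (msymm ![2, 2, 2, 0])) =
    2 * x 0 ^ 2 * x 1 ^ 2 * x 2 + 2 * x 0 ^ 2 * x 2 * x 3 ^ 2 + 2 * x 1 ^ 2 * x 2 * x 3 ^ 2 := by
  rw [eval_d, sum222]
  simp [R222, Fin.prod_univ_four]
  try ring

theorem d222_3 (x : Fin 4 → ℝ) : eval x (pderiv 3 (msymm ![2, 2, 2, 0])) =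
    2 * x 0 ^ 2 * x 1 ^ 2 * x 3 + 2 * x 0 ^ 2 * x 2 ^ 2 * x 3 + 2 * x 1 ^ 2 * x 2 ^ 2 * x 3 := by
  rw [eval_d, sum222]
  simp [R222, Fin.prod_univ_four]
  try ring

theorem first222 (x : Fin 4 → ℝ) (hx : Function.Injective x) :
    ∑ i, ∑ j ∈ Finset.univ.erase i, x i ^ 2 / (x i - x j) * eval x (pderiv i (msymm ![2, 2, 2, 0]))
      = 12 * eval x (msymm ![2, 2, 2, 0]) + 2 * eval x (msymm ![2, 2, 1, 1]) := by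
  rw [sum_pairs]
  rw [pair_quot (eval x (pderiv 0 (msymm ![2, 2, 2, 0]))) (eval x (pderiv 1 (msymm ![2, 2, 2, 0]))) (x 0) (x 1)
    (2 * x 0 ^ 2 * x 1 ^ 2 * x 2 ^ 2 + 2 * x 0 ^ 2 * x 1 ^ 2 * x 3 ^ 2 + 2 * x 0 ^ 2 * x 2 ^ 2 * x 3 ^ 2 + 2 * x 0 * x 1 * x 2 ^ 2 * x 3 ^ 2 + 2 * x 1 ^ 2 * x 2 ^ 2 * x 3 ^ 2)
    (fun h => absurd (hx h) (by decide)) (by rw [d222_0, d222_1]; ring)]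
  rw [pair_quot (eval x (pderiv 0 (msymm ![2, 2, 2, 0]))) (eval x (pderiv 2 (msymm ![2, 2, 2, 0]))) (x 0) (x 2)
    (2 * x 0 ^ 2 * x 1 ^ 2 * x 2 ^ 2 + 2 * x 0 ^ 2 * x 1 ^ 2 * x 3 ^ 2 + 2 * x 0 ^ 2 * x 2 ^ 2 * x 3 ^ 2 + 2 * x 0 * x 1 ^ 2 * x 2 * x 3 ^ 2 + 2 * x 1 ^ 2 * x 2 ^ 2 * x 3 ^ 2)
    (fun h => absurd (hx h) (by decide)) (by rw [d222_0, d222_2]; ring)]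
  rw [pair_quot (eval x (pderiv 0 (msymm ![2, 2, 2, 0]))) (eval x (pderiv 3 (msymm ![2, 2, 2, 0]))) (x 0) (x 3)
    (2 * x 0 ^ 2 * x 1 ^ 2 * x 2 ^ 2 + 2 * x 0 ^ 2 * x 1 ^ 2 * x 3 ^ 2 + 2 * x 0 ^ 2 * x 2 ^ 2 * x 3 ^ 2 + 2 * x 0 * x 1 ^ 2 * x 2 ^ 2 * x 3 + 2 * x 1 ^ 2 * x 2 ^ 2 * x 3 ^ 2)
    (fun h => absurd (hx h) (by decide)) (by rw [d222_0, d222_3]; ring)]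
  rw [pair_quot (eval x (pderiv 1 (msymm ![2, 2, 2, 0]))) (eval x (pderiv 2 (msymm ![2, 2, 2, 0]))) (x 1) (x 2)
    (2 * x 0 ^ 2 * x 1 ^ 2 * x 2 ^ 2 + 2 * x 0 ^ 2 * x 1 ^ 2 * x 3 ^ 2 + 2 * x 0 ^ 2 * x 1 * x 2 * x 3 ^ 2 + 2 * x 0 ^ 2 * x 2 ^ 2 * x 3 ^ 2 + 2 * x 1 ^ 2 * x 2 ^ 2 * x 3 ^ 2)
    (fun h => absurd (hx h) (by decide)) (by rw [d222_1, d222_2]; ring)]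
  rw [pair_quot (eval x (pderiv 1 (msymm ![2, 2, 2, 0]))) (eval x (pderiv 3 (msymm ![2, 2, 2, 0]))) (x 1) (x 3)
    (2 * x 0 ^ 2 * x 1 ^ 2 * x 2 ^ 2 + 2 * x 0 ^ 2 * x 1 ^ 2 * x 3 ^ 2 + 2 * x 0 ^ 2 * x 1 * x 2 ^ 2 * x 3 + 2 * x 0 ^ 2 * x 2 ^ 2 * x 3 ^ 2 + 2 * x 1 ^ 2 * x 2 ^ 2 * x 3 ^ 2)
    (fun h => absurd (hx h) (by decide)) (by rw [d222_1, d222_3]; ring)]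
  rw [pair_quot (eval x (pderiv 2 (msymm ![2, 2, 2, 0]))) (eval x (pderiv 3 (msymm ![2, 2, 2, 0]))) (x 2) (x 3)
    (2 * x 0 ^ 2 * x 1 ^ 2 * x 2 ^ 2 + 2 * x 0 ^ 2 * x 1 ^ 2 * x 2 * x 3 + 2 * x 0 ^ 2 * x 1 ^ 2 * x 3 ^ 2 + 2 * x 0 ^ 2 * x 2 ^ 2 * x 3 ^ 2 + 2 * x 1 ^ 2 * x 2 ^ 2 * x 3 ^ 2)
    (fun h => absurd (hx h) (by decide)) (by rw [d222_2, d222_3]; ring)]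
  rw [ev222, ev2211]
  ring

theorem d2211_0 (x : Fin 4 → ℝ) : eval x (pderiv 0 (msymm ![2, 2, 1, 1])) =
    2 * x 0 * x 1 ^ 2 * x 2 * x 3 + 2 * x 0 * x 1 * x 2 ^ 2 * x 3 + 2 * x 0 * x 1 * x 2 * x 3 ^ 2 + x 1 ^ 2 * x 2 ^ 2 * x 3 + x 1 ^ 2 * x 2 * x 3 ^ 2 + x 1 * x 2 ^ 2 * x 3 ^ 2 := by
  rw [eval_d, sum2211]
  simp [R2211, Fin.prod_univ_four]
  try ring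

theorem d2211_1 (x : Fin 4 → ℝ) : eval x (pderiv 1 (msymm ![2, 2, 1, 1])) =
    2 * x 0 ^ 2 * x 1 * x 2 * x 3 + x 0 ^ 2 * x 2 ^ 2 * x 3 + x 0 ^ 2 * x 2 * x 3 ^ 2 + 2 * x 0 * x 1 * x 2 ^ 2 * x 3 + 2 * x 0 * x 1 * x 2 * x 3 ^ 2 + x 0 * x 2 ^ 2 * x 3 ^ 2 := by
  rw [eval_d, sum2211]
  simp [R2211, Fin.prod_univ_four]
  try ring

theorem d2211_2 (x : Fin 4 → ℝ) : eval x (pderiv 2 (msymm ![2, 2, 1, 1])) =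
    x 0 ^ 2 * x 1 ^ 2 * x 3 + 2 * x 0 ^ 2 * x 1 * x 2 * x 3 + x 0 ^ 2 * x 1 * x 3 ^ 2 + 2 * x 0 * x 1 ^ 2 * x 2 * x 3 + x 0 * x 1 ^ 2 * x 3 ^ 2 + 2 * x 0 * x 1 * x 2 * x 3 ^ 2 := by
  rw [eval_d, sum2211]
  simp [R2211, Fin.prod_univ_four]
  try ring

theorem d2211_3 (x : Fin 4 → ℝ) : eval x (pderiv 3 (msymm ![2, 2, 1, 1])) =
    x 0 ^ 2 * x 1 ^ 2 * x 2 + x 0 ^ 2 * x 1 * x 2 ^ 2 + 2 * x 0 ^ 2 * x 1 * x 2 * x 3 + x 0 * x 1 ^ 2 * x 2 ^ 2 + 2 * x 0 * x 1 ^ 2 * x 2 * x 3 + 2 * x 0 * x 1 * x 2 ^ 2 * x 3 := by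
  rw [eval_d, sum2211]
  simp [R2211, Fin.prod_univ_four]
  try ring

theorem first2211 (x : Fin 4 → ℝ) (hx : Function.Injective x) :
    ∑ i, ∑ j ∈ Finset.univ.erase i, x i ^ 2 / (x i - x j) * eval x (pderiv i (msymm ![2, 2, 1, 1]))
      = 11 * eval x (msymm ![2, 2, 1, 1]) := by
  rw [sum_pairs]
  rw [pair_quot (eval x (pderiv 0 (msymm ![2, 2, 1, 1]))) (eval x (pderiv 1 (msymm ![2, 2, 1, 1]))) (x 0) (x 1)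
    (2 * x 0 ^ 2 * x 1 ^ 2 * x 2 * x 3 + 2 * x 0 ^ 2 * x 1 * x 2 ^ 2 * x 3 + 2 * x 0 ^ 2 * x 1 * x 2 * x 3 ^ 2 + 2 * x 0 * x 1 ^ 2 * x 2 ^ 2 * x 3 + 2 * x 0 * x 1 ^ 2 * x 2 * x 3 ^ 2 + x 0 * x 1 * x 2 ^ 2 * x 3 ^ 2)
    (fun h => absurd (hx h) (by decide)) (by rw [d2211_0, d2211_1]; ring)]
  rw [pair_quot (eval x (pderiv 0 (msymm ![2, 2, 1, 1]))) (eval x (pderiv 2 (msymm ![2, 2, 1, 1]))) (x 0) (x 2)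
    (2 * x 0 ^ 2 * x 1 ^ 2 * x 2 * x 3 + 2 * x 0 ^ 2 * x 1 * x 2 ^ 2 * x 3 + 2 * x 0 ^ 2 * x 1 * x 2 * x 3 ^ 2 + 2 * x 0 * x 1 ^ 2 * x 2 ^ 2 * x 3 + x 0 * x 1 ^ 2 * x 2 * x 3 ^ 2 + 2 * x 0 * x 1 * x 2 ^ 2 * x 3 ^ 2)
    (fun h => absurd (hx h) (by decide)) (by rw [d2211_0, d2211_2]; ring)]
  rw [pair_quot (eval x (pderiv 0 (msymm ![2, 2, 1, 1]))) (eval x (pderiv 3 (msymm ![2, 2, 1, 1]))) (x 0) (x 3)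
    (2 * x 0 ^ 2 * x 1 ^ 2 * x 2 * x 3 + 2 * x 0 ^ 2 * x 1 * x 2 ^ 2 * x 3 + 2 * x 0 ^ 2 * x 1 * x 2 * x 3 ^ 2 + x 0 * x 1 ^ 2 * x 2 ^ 2 * x 3 + 2 * x 0 * x 1 ^ 2 * x 2 * x 3 ^ 2 + 2 * x 0 * x 1 * x 2 ^ 2 * x 3 ^ 2)
    (fun h => absurd (hx h) (by decide)) (by rw [d2211_0, d2211_3]; ring)]
  rw [pair_quot (eval x (pderiv 1 (msymm ![2, 2, 1, 1]))) (eval x (pderiv 2 (msymm ![2, 2, 1, 1]))) (x 1) (x 2)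
    (2 * x 0 ^ 2 * x 1 ^ 2 * x 2 * x 3 + 2 * x 0 ^ 2 * x 1 * x 2 ^ 2 * x 3 + x 0 ^ 2 * x 1 * x 2 * x 3 ^ 2 + 2 * x 0 * x 1 ^ 2 * x 2 ^ 2 * x 3 + 2 * x 0 * x 1 ^ 2 * x 2 * x 3 ^ 2 + 2 * x 0 * x 1 * x 2 ^ 2 * x 3 ^ 2)
    (fun h => absurd (hx h) (by decide)) (by rw [d2211_1, d2211_2]; ring)]
  rw [pair_quot (eval x (pderiv 1 (msymm ![2, 2, 1, 1]))) (eval x (pderiv 3 (msymm ![2, 2, 1, 1]))) (x 1) (x 3)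
    (2 * x 0 ^ 2 * x 1 ^ 2 * x 2 * x 3 + x 0 ^ 2 * x 1 * x 2 ^ 2 * x 3 + 2 * x 0 ^ 2 * x 1 * x 2 * x 3 ^ 2 + 2 * x 0 * x 1 ^ 2 * x 2 ^ 2 * x 3 + 2 * x 0 * x 1 ^ 2 * x 2 * x 3 ^ 2 + 2 * x 0 * x 1 * x 2 ^ 2 * x 3 ^ 2)
    (fun h => absurd (hx h) (by decide)) (by rw [d2211_1, d2211_3]; ring)]
  rw [pair_quot (eval x (pderiv 2 (msymm ![2, 2, 1, 1]))) (eval x (pderiv 3 (msymm ![2, 2, 1, 1]))) (x 2) (x 3)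
    (x 0 ^ 2 * x 1 ^ 2 * x 2 * x 3 + 2 * x 0 ^ 2 * x 1 * x 2 ^ 2 * x 3 + 2 * x 0 ^ 2 * x 1 * x 2 * x 3 ^ 2 + 2 * x 0 * x 1 ^ 2 * x 2 ^ 2 * x 3 + 2 * x 0 * x 1 ^ 2 * x 2 * x 3 ^ 2 + 2 * x 0 * x 1 * x 2 ^ 2 * x 3 ^ 2)
    (fun h => absurd (hx h) (by decide)) (by rw [d2211_2, d2211_3]; ring)]
  rw [ev2211]
  ring

end Pool.Agent.R136.Mu
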