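import Pool.Agent.R136.Mu.Jack0

set_option autoImplicit false
set_option linter.unusedSimpArgs false

open MvPolynomial

namespace Pool.Agent.R136.Mu

theorem majorizes_of (l m : Fin 4 → ℕ) (h1 : m 0 ≤ l 0) (h2 : m 0 + m 1 ≤ l 0 + l 1)
    (h3 : m 0 + m 1 + m 2 ≤ l 0 + l 1 + l 2)
    (h4 : l 0 + l 1 + l 2 + l 3 = m 0 + m 1 + m 2 + m 3) : Majorizes l m := by
  refine ⟨?_, ?_⟩
  · intro k
    simp only [Finset.sum_filter, Fin.sum_univ_four]
    have e0 : ((0 : Fin 4) : ℕ) = 0 := rfl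
    have e1 : ((1 : Fin 4) : ℕ) = 1 := rfl
    have e2 : ((2 : Fin 4) : ℕ) = 2 := rfl
    have e3 : ((3 : Fin 4) : ℕ) = 3 := rfl
    rw [e0, e1, e2, e3]
    split_ifs <;> omega
  · rw [Fin.sum_univ_four, Fin.sum_univ_four]
    exact h4

/-- The operator. -/
noncomputable def Dop (τ : ℝ) (x : Fin 4 → ℝ) (P : MvPolynomial (Fin 4) ℝ) : ℝ :=
  ∑ i, x i ^ 2 * eval x (pderiv i (pderiv i P))
      + 2 * τ * ∑ i, ∑ j ∈ Finset.univ.erase i,
          x i ^ 2 / (x i - x j) * eval x (pderiv i P)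

theorem Dop_add (τ : ℝ) (x : Fin 4 → ℝ) (P Q : MvPolynomial (Fin 4) ℝ) :
    Dop τ x (P + Q) = Dop τ x P + Dop τ x Q := by
  simp only [Dop, map_add, mul_add, Finset.sum_add_distrib]
  ring

theorem Dop_C (τ : ℝ) (x : Fin 4 → ℝ) (c : ℝ) (P : MvPolynomial (Fin 4) ℝ) :
    Dop τ x (C c * P) = c * Dop τ x P := by
  have h1 : ∀ i, eval x (pderiv i (C c * P)) = c * eval x (pderiv i P) := by
    intro i; rw [pderiv_C_mul, map_mul, eval_C]
  have h2 : ∀ i, eval x (pderiv i (pderiv i (C c * P))) = c * eval x (pderiv i (pderiv i P)) := by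
    intro i; rw [pderiv_C_mul, pderiv_C_mul, map_mul, eval_C]
  simp only [Dop, h1, h2, mul_add, Finset.mul_sum]
  congr 1
  · refine Finset.sum_congr rfl fun i _ => ?_
    ring
  · refine Finset.sum_congr rfl fun i _ => Finset.sum_congr rfl fun j _ => ?_
    ring

theorem Dop42 (τ : ℝ) (x : Fin 4 → ℝ) (hx : Function.Injective x) :
    Dop τ x (msymm ![4, 2, 0, 0]) = 14 * eval x (msymm ![4, 2, 0, 0]) + 2 * τ *
      (16 * eval x (msymm ![4, 2, 0, 0]) + 2 * eval x (msymm ![4, 1, 1, 0])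
        + 2 * eval x (msymm ![3, 3, 0, 0]) + 4 * eval x (msymm ![3, 2, 1, 0])
        + 12 * eval x (msymm ![2, 2, 2, 0])) := by
  unfold Dop
  rw [second_order, first42 x hx]
  congr 1
  congr 1
  simp [Fin.sum_univ_four]
  norm_num

theorem Dop411 (τ : ℝ) (x : Fin 4 → ℝ) (hx : Function.Injective x) :
    Dop τ x (msymm ![4, 1, 1, 0]) = 12 * eval x (msymm ![4, 1, 1, 0]) + 2 * τ *
      (15 * eval x (msymm ![4, 1, 1, 0]) + 3 * eval x (msymm ![3, 2, 1, 0])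
        + 12 * eval x (msymm ![3, 1, 1, 1]) + 4 * eval x (msymm ![2, 2, 1, 1])) := by
  unfold Dop
  rw [second_order, first411 x hx]
  congr 1
  congr 1
  simp [Fin.sum_univ_four]
  norm_num

theorem Dop33 (τ : ℝ) (x : Fin 4 → ℝ) (hx : Function.Injective x) :
    Dop τ x (msymm ![3, 3, 0, 0]) = 12 * eval x (msymm ![3, 3, 0, 0]) + 2 * τ *
      (15 * eval x (msymm ![3, 3, 0, 0]) + 3 * eval x (msymm ![3, 2, 1, 0])) := by
  unfold Dop
  rw [second_order, first33 x hx]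
  congr 1
  congr 1
  simp [Fin.sum_univ_four]
  norm_num

theorem Dop321 (τ : ℝ) (x : Fin 4 → ℝ) (hx : Function.Injective x) :
    Dop τ x (msymm ![3, 2, 1, 0]) = 8 * eval x (msymm ![3, 2, 1, 0]) + 2 * τ *
      (14 * eval x (msymm ![3, 2, 1, 0]) + 6 * eval x (msymm ![3, 1, 1, 1])
        + 6 * eval x (msymm ![2, 2, 2, 0]) + 12 * eval x (msymm ![2, 2, 1, 1])) := by
  unfold Dop
  rw [second_order, first321 x hx]
  congr 1
  congr 1
  simp [Fin.sum_univ_four]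
  norm_num

theorem Dop3111 (τ : ℝ) (x : Fin 4 → ℝ) (hx : Function.Injective x) :
    Dop τ x (msymm ![3, 1, 1, 1]) = 6 * eval x (msymm ![3, 1, 1, 1]) + 2 * τ *
      (12 * eval x (msymm ![3, 1, 1, 1]) + 2 * eval x (msymm ![2, 2, 1, 1])) := by
  unfold Dop
  rw [second_order, first3111 x hx]
  congr 1
  congr 1
  simp [Fin.sum_univ_four]
  norm_num

theorem Dop222 (τ : ℝ) (x : Fin 4 → ℝ) (hx : Function.Injective x) :
    Dop τ x (msymm ![2, 2, 2, 0]) = 6 * eval x (msymm ![2, 2, 2, 0]) + 2 * τ *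
      (12 * eval x (msymm ![2, 2, 2, 0]) + 2 * eval x (msymm ![2, 2, 1, 1])) := by
  unfold Dop
  rw [second_order, first222 x hx]
  congr 1
  congr 1
  simp [Fin.sum_univ_four]
  norm_num

theorem Dop2211 (τ : ℝ) (x : Fin 4 → ℝ) (hx : Function.Injective x) :
    Dop τ x (msymm ![2, 2, 1, 1]) = 4 * eval x (msymm ![2, 2, 1, 1]) + 2 * τ *
      (11 * eval x (msymm ![2, 2, 1, 1])) := by
  unfold Dop
  rw [second_order, first2211 x hx]
  congr 1
  congr 1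
  simp [Fin.sum_univ_four]
  norm_num

/-- `P_(4,2)(x; 1/11)` in four variables. -/
noncomputable def PA : MvPolynomial (Fin 4) ℝ :=
  msymm ![4, 2, 0, 0] + (C (1 / 6) * msymm ![4, 1, 1, 0] + (C (1 / 6) * msymm ![3, 3, 0, 0]
    + (C (1 / 7) * msymm ![3, 2, 1, 0] + (C (5 / 84) * msymm ![3, 1, 1, 1]
    + (C (15 / 56) * msymm ![2, 2, 2, 0] + C (17 / 336) * msymm ![2, 2, 1, 1])))))

/-- `P_(3,3)(x; 1/11)` in four variables. -/
noncomputable def PB : MvPolynomial (Fin 4) ℝ :=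
  msymm ![3, 3, 0, 0] + (C (3 / 23) * msymm ![3, 2, 1, 0] + (C (1 / 46) * msymm ![3, 1, 1, 1]
    + (C (1 / 46) * msymm ![2, 2, 2, 0] + C (19 / 552) * msymm ![2, 2, 1, 1])))

theorem Dop_PA (x : Fin 4 → ℝ) (hx : Function.Injective x) :
    Dop (1 / 11) x PA = 186 / 11 * eval x PA := by
  unfold PA
  simp only [Dop_add, Dop_C, Dop42 _ x hx, Dop411 _ x hx, Dop33 _ x hx, Dop321 _ x hx,
    Dop3111 _ x hx, Dop222 _ x hx, Dop2211 _ x hx, map_add, map_mul, eval_C]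
  ring

theorem Dop_PB (x : Fin 4 → ℝ) (hx : Function.Injective x) :
    Dop (1 / 11) x PB = 162 / 11 * eval x PB := by
  unfold PB
  simp only [Dop_add, Dop_C, Dop42 _ x hx, Dop411 _ x hx, Dop33 _ x hx, Dop321 _ x hx,
    Dop3111 _ x hx, Dop222 _ x hx, Dop2211 _ x hx, map_add, map_mul, eval_C]
  ring

theorem anti_dec (l : Fin 4 → ℕ) (h : ∀ a b : Fin 4, a ≤ b → l b ≤ l a) : Antitone l :=
  fun a b hab => h a b hab

def sA : Finset (Fin 4 → ℕ) := {![4, 1, 1, 0], ![3, 3, 0, 0], ![3, 2, 1, 0], ![3, 1, 1, 1],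
  ![2, 2, 2, 0], ![2, 2, 1, 1]}

def sB : Finset (Fin 4 → ℕ) := {![3, 2, 1, 0], ![3, 1, 1, 1], ![2, 2, 2, 0], ![2, 2, 1, 1]}

noncomputable def cA (m : Fin 4 → ℕ) : ℝ :=
  if m = ![4, 1, 1, 0] then 1 / 6 else if m = ![3, 3, 0, 0] then 1 / 6 else
  if m = ![3, 2, 1, 0] then 1 / 7 else if m = ![3, 1, 1, 1] then 5 / 84 else
  if m = ![2, 2, 2, 0] then 15 / 56 else 17 / 336

noncomputable def cB (m : Fin 4 → ℕ) : ℝ :=
  if m = ![3, 2, 1, 0] then 3 / 23 else if m = ![3, 1, 1, 1] then 1 / 46 else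
  if m = ![2, 2, 2, 0] then 1 / 46 else 19 / 552

theorem sA_ok : ∀ m ∈ sA, (∀ a b : Fin 4, a ≤ b → m b ≤ m a) ∧
    (m 0 ≤ (![4, 2, 0, 0] : Fin 4 → ℕ) 0 ∧
      m 0 + m 1 ≤ (![4, 2, 0, 0] : Fin 4 → ℕ) 0 + (![4, 2, 0, 0] : Fin 4 → ℕ) 1 ∧
      m 0 + m 1 + m 2 ≤ (![4, 2, 0, 0] : Fin 4 → ℕ) 0 + (![4, 2, 0, 0] : Fin 4 → ℕ) 1
        + (![4, 2, 0, 0] : Fin 4 → ℕ) 2 ∧
      (![4, 2, 0, 0] : Fin 4 → ℕ) 0 + (![4, 2, 0, 0] : Fin 4 → ℕ) 1
        + (![4, 2, 0, 0] : Fin 4 → ℕ) 2 + (![4, 2, 0, 0] : Fin 4 → ℕ) 3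
        = m 0 + m 1 + m 2 + m 3) ∧ m ≠ ![4, 2, 0, 0] := by decide +kernel

theorem sB_ok : ∀ m ∈ sB, (∀ a b : Fin 4, a ≤ b → m b ≤ m a) ∧
    (m 0 ≤ (![3, 3, 0, 0] : Fin 4 → ℕ) 0 ∧
      m 0 + m 1 ≤ (![3, 3, 0, 0] : Fin 4 → ℕ) 0 + (![3, 3, 0, 0] : Fin 4 → ℕ) 1 ∧
      m 0 + m 1 + m 2 ≤ (![3, 3, 0, 0] : Fin 4 → ℕ) 0 + (![3, 3, 0, 0] : Fin 4 → ℕ) 1
        + (![3, 3, 0, 0] : Fin 4 → ℕ) 2 ∧
      (![3, 3, 0, 0] : Fin 4 → ℕ) 0 + (![3, 3, 0, 0] : Fin 4 → ℕ) 1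
        + (![3, 3, 0, 0] : Fin 4 → ℕ) 2 + (![3, 3, 0, 0] : Fin 4 → ℕ) 3
        = m 0 + m 1 + m 2 + m 3) ∧ m ≠ ![3, 3, 0, 0] := by decide +kernel

theorem sumA (f : (Fin 4 → ℕ) → MvPolynomial (Fin 4) ℝ) : ∑ m ∈ sA, f m =
    f ![4, 1, 1, 0] + (f ![3, 3, 0, 0] + (f ![3, 2, 1, 0] + (f ![3, 1, 1, 1]
      + (f ![2, 2, 2, 0] + f ![2, 2, 1, 1])))) := by
  unfold sA
  rw [Finset.sum_insert (by decide), Finset.sum_insert (by decide), Finset.sum_insert (by decide),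
    Finset.sum_insert (by decide), Finset.sum_insert (by decide), Finset.sum_singleton]

theorem sumB (f : (Fin 4 → ℕ) → MvPolynomial (Fin 4) ℝ) : ∑ m ∈ sB, f m =
    f ![3, 2, 1, 0] + (f ![3, 1, 1, 1] + (f ![2, 2, 2, 0] + f ![2, 2, 1, 1])) := by
  unfold sB
  rw [Finset.sum_insert (by decide), Finset.sum_insert (by decide), Finset.sum_insert (by decide),
    Finset.sum_singleton]

theorem jackA : IsJack (1 / 11) ![4, 2, 0, 0] PA := by
  refine ⟨⟨sA, cA, ?_, ?_⟩, 186 / 11, fun x hx => Dop_PA x hx⟩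
  · intro m hm
    obtain ⟨h1, ⟨h2, h3, h4, h5⟩, h6⟩ := sA_ok m hm
    exact ⟨anti_dec m h1, majorizes_of _ _ h2 h3 h4 h5, h6⟩
  · rw [sumA]
    have c1 : cA ![4, 1, 1, 0] = 1 / 6 := by
      unfold cA; rw [if_pos rfl]
    have c2 : cA ![3, 3, 0, 0] = 1 / 6 := by
      unfold cA; rw [if_neg (by decide), if_pos rfl]
    have c3 : cA ![3, 2, 1, 0] = 1 / 7 := by
      unfold cA; rw [if_neg (by decide), if_neg (by decide), if_pos rfl]
    have c4 : cA ![3, 1, 1, 1] = 5 / 84 := by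
      unfold cA; rw [if_neg (by decide), if_neg (by decide), if_neg (by decide), if_pos rfl]
    have c5 : cA ![2, 2, 2, 0] = 15 / 56 := by
      unfold cA
      rw [if_neg (by decide), if_neg (by decide), if_neg (by decide), if_neg (by decide),
        if_pos rfl]
    have c6 : cA ![2, 2, 1, 1] = 17 / 336 := by
      unfold cA
      rw [if_neg (by decide), if_neg (by decide), if_neg (by decide), if_neg (by decide),
        if_neg (by decide)]
    rw [c1, c2, c3, c4, c5, c6, PA]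

theorem jackB : IsJack (1 / 11) ![3, 3, 0, 0] PB := by
  refine ⟨⟨sB, cB, ?_, ?_⟩, 162 / 11, fun x hx => Dop_PB x hx⟩
  · intro m hm
    obtain ⟨h1, ⟨h2, h3, h4, h5⟩, h6⟩ := sB_ok m hm
    exact ⟨anti_dec m h1, majorizes_of _ _ h2 h3 h4 h5, h6⟩
  · rw [sumB]
    have c3 : cB ![3, 2, 1, 0] = 3 / 23 := by
      unfold cB; rw [if_pos rfl]
    have c4 : cB ![3, 1, 1, 1] = 1 / 46 := by
      unfold cB; rw [if_neg (by decide), if_pos rfl]
    have c5 : cB ![2, 2, 2, 0] = 1 / 46 := by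
      unfold cB; rw [if_neg (by decide), if_neg (by decide), if_pos rfl]
    have c6 : cB ![2, 2, 1, 1] = 19 / 552 := by
      unfold cB; rw [if_neg (by decide), if_neg (by decide), if_neg (by decide)]
    rw [c3, c4, c5, c6, PB]

/-- The functional on all polynomials. -/
noncomputable def Ls (p : MvPolynomial (Fin 4) ℝ) : ℝ := ∑ k, (wt k : ℝ) * evv p k

theorem Ls_add (p q : MvPolynomial (Fin 4) ℝ) : Ls (p + q) = Ls p + Ls q := by
  simp only [Ls, evv, map_add, mul_add, Finset.sum_add_distrib]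

theorem Ls_C (c : ℝ) (p : MvPolynomial (Fin 4) ℝ) : Ls (C c * p) = c * Ls p := by
  simp only [Ls, evv, map_mul, eval_C, Finset.mul_sum]
  refine Finset.sum_congr rfl fun k _ => ?_
  ring

theorem Ls_msymm (l : Fin 4 → ℕ) : Ls (msymm l) = ((Lz (fun k => mz l (pt k)) : ℤ) : ℝ) := by
  unfold Ls Lz evv
  simp only [eval_msymm_int]
  push_cast
  rfl

theorem Lv42 : Ls (msymm ![4, 2, 0, 0]) = 4860 := by
  rw [Ls_msymm, show Lz (fun k => mz ![4, 2, 0, 0] (pt k)) = 4860 from by decide +kernel]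
  norm_num

theorem Lv411 : Ls (msymm ![4, 1, 1, 0]) = 1512 := by
  rw [Ls_msymm, show Lz (fun k => mz ![4, 1, 1, 0] (pt k)) = 1512 from by decide +kernel]
  norm_num

theorem Lv33 : Ls (msymm ![3, 3, 0, 0]) = 2430 := by
  rw [Ls_msymm, show Lz (fun k => mz ![3, 3, 0, 0] (pt k)) = 2430 from by decide +kernel]
  norm_num

theorem Lv321 : Ls (msymm ![3, 2, 1, 0]) = 3024 := by
  rw [Ls_msymm, show Lz (fun k => mz ![3, 2, 1, 0] (pt k)) = 3024 from by decide +kernel]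
  norm_num

theorem Lv3111 : Ls (msymm ![3, 1, 1, 1]) = 36 := by
  rw [Ls_msymm, show Lz (fun k => mz ![3, 1, 1, 1] (pt k)) = 36 from by decide +kernel]
  norm_num

theorem Lv222 : Ls (msymm ![2, 2, 2, 0]) = 0 := by
  rw [Ls_msymm, show Lz (fun k => mz ![2, 2, 2, 0] (pt k)) = 0 from by decide +kernel]
  norm_num

theorem Lv2211 : Ls (msymm ![2, 2, 1, 1]) = 0 := by
  rw [Ls_msymm, show Lz (fun k => mz ![2, 2, 1, 1] (pt k)) = 0 from by decide +kernel]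
  norm_num

theorem LsA : Ls PA = 41658 / 7 := by
  unfold PA
  simp only [Ls_add, Ls_C, Lv42, Lv411, Lv33, Lv321, Lv3111, Lv222, Lv2211]
  norm_num

theorem LsB : Ls PB = 64980 / 23 := by
  unfold PB
  simp only [Ls_add, Ls_C, Lv42, Lv411, Lv33, Lv321, Lv3111, Lv222, Lv2211]
  norm_num

theorem oneA : eval (fun _ => (1 : ℝ)) PA = 481 / 24 := by
  unfold PA
  simp only [map_add, map_mul, eval_C, ev42, ev411, ev33, ev321, ev3111, ev222, ev2211]
  norm_num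

theorem oneB : eval (fun _ => (1 : ℝ)) PB = 875 / 92 := by
  unfold PB
  simp only [map_add, map_mul, eval_C, ev42, ev411, ev33, ev321, ev3111, ev222, ev2211]
  norm_num

theorem hom6 (l : Fin 4 → ℕ) (h : ∑ i, l i = 6) : (msymm l).IsHomogeneous 6 := by
  have := msymm_homog l
  rwa [h] at this

theorem homC (c : ℝ) {p : MvPolynomial (Fin 4) ℝ} (h : p.IsHomogeneous 6) :
    (C c * p).IsHomogeneous 6 := by
  have := (isHomogeneous_C (Fin 4) c).mul h
  rwa [zero_add] at this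

theorem homA : PA.IsHomogeneous 6 := by
  unfold PA
  refine (hom6 _ (by decide)).add ?_
  refine (homC _ (hom6 _ (by decide))).add ?_
  refine (homC _ (hom6 _ (by decide))).add ?_
  refine (homC _ (hom6 _ (by decide))).add ?_
  refine (homC _ (hom6 _ (by decide))).add ?_
  exact (homC _ (hom6 _ (by decide))).add (homC _ (hom6 _ (by decide)))

theorem homB : PB.IsHomogeneous 6 := by
  unfold PB
  refine (hom6 _ (by decide)).add ?_
  refine (homC _ (hom6 _ (by decide))).add ?_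
  refine (homC _ (hom6 _ (by decide))).add ?_
  exact (homC _ (hom6 _ (by decide))).add (homC _ (hom6 _ (by decide)))

theorem Lam_of_hom {p : MvPolynomial (Fin 4) ℝ} (h : p.IsHomogeneous 6) : Lam p = Ls p := by
  unfold Lam Ls
  rw [homogeneousComponent_of_mem ((mem_homogeneousSubmodule 6 p).2 h), if_pos rfl]

theorem Lam_neg : Lam (normalized PA - normalized PB) < 0 := by
  have h : normalized PA - normalized PB = normalized PA + C (-1) * normalized PB := by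
    rw [C_neg, C_1]; ring
  rw [h, Lam_add, Lam_of_hom (normalized_homog homA), Lam_of_hom (homC _ (normalized_homog homB)),
    Ls_C]
  unfold normalized
  rw [Ls_C, Ls_C, oneA, oneB, LsA, LsB]
  norm_num

theorem main : ∃ P Q : MvPolynomial (Fin 4) ℝ,
    IsJack (1 / 11) ![4, 2, 0, 0] P ∧ IsJack (1 / 11) ![3, 3, 0, 0] Q ∧
    Majorizes (![4, 2, 0, 0] : Fin 4 → ℕ) ![3, 3, 0, 0] ∧
    normalized P - normalized Q ∉ muirheadSemiring 4 := by
  refine ⟨PA, PB, jackA, jackB, ?_, ?_⟩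
  · exact majorizes_of _ _ (by decide) (by decide) (by decide) (by decide)
  · intro h
    exact absurd (Lam_nonneg h) (not_le.mpr Lam_neg)

end Pool.Agent.R136.Mu
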