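import Pool.Agent.R136.Mu.Cone

set_option autoImplicit false

open MvPolynomial

namespace Pool.Agent.R136.Mu

/-- Cast an integer vector to a real one. -/
def cv (z : Fin 6 → ℤ) : Fin 6 → ℝ := fun k => (z k : ℝ)

def halfL : Submodule NNReal (Fin 6 → ℝ) where
  carrier := {v | 0 ≤ ∑ k, (wt k : ℝ) * v k}
  add_mem' := by
    intro a b ha hb
    simp only [Set.mem_ofPred_eq, Pi.add_apply, mul_add, Finset.sum_add_distrib] at *
    exact add_nonneg ha hb
  zero_mem' := by simp
  smul_mem' := by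
    intro c x hx
    simp only [Set.mem_ofPred_eq, Pi.smul_apply] at *
    have : ∑ k, (wt k : ℝ) * (c • x k) = (c : ℝ) * ∑ k, (wt k : ℝ) * x k := by
      rw [Finset.mul_sum]
      refine Finset.sum_congr rfl fun k _ => ?_
      rw [NNReal.smul_def, smul_eq_mul]; ring
    rw [this]
    exact mul_nonneg c.2 hx

def raySet (d : ℕ) : Set (Fin 6 → ℝ) := {v | ∃ r ∈ rays d, v = cv r}

def K (d : ℕ) : Submodule NNReal (Fin 6 → ℝ) :=
  if d ≤ 5 then Submodule.span NNReal (raySet d) else if d = 6 then halfL else ⊤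

theorem combo_mem (S : Submodule NNReal (Fin 6 → ℝ)) (R : List (Fin 6 → ℤ)) :
    ∀ (c : List ℕ), (∀ r ∈ R, cv r ∈ S) → (fun k => ((combo c R k : ℤ) : ℝ)) ∈ S := by
  induction R with
  | nil => intro c _; cases c <;> simp [combo] <;> exact S.zero_mem
  | cons r R ih =>
    intro c hR
    cases c with
    | nil => simp [combo]; exact S.zero_mem
    | cons a c =>
      have h1 : cv r ∈ S := hR r (by simp)
      have h2 := ih c (fun r' hr' => hR r' (by simp [hr']))
      have : (fun k => ((combo (a :: c) (r :: R) k : ℤ) : ℝ))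
          = (a : NNReal) • cv r + (fun k => ((combo c R k : ℤ) : ℝ)) := by
        funext k
        simp only [combo, Pi.add_apply, Pi.smul_apply, cv, NNReal.smul_def]
        push_cast
        simp
      rw [this]
      exact S.add_mem (S.smul_mem _ h1) h2

theorem check_sound {d : ℕ} {z : Fin 6 → ℤ} (hd : d ≤ 5) (h : check d z = true) :
    cv z ∈ K d := by
  unfold check at h
  rw [List.any_eq_true] at h
  obtain ⟨c, -, hc⟩ := h
  simp only [decide_eq_true_eq] at hc
  obtain ⟨hN, hk⟩ := hc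
  have hm : (fun k => ((combo c.2 (rays d) k : ℤ) : ℝ)) ∈ K d := by
    apply combo_mem
    intro r hr
    unfold K
    rw [if_pos hd]
    exact Submodule.subset_span ⟨r, hr, rfl⟩
  have : cv z = ((c.1 : NNReal)⁻¹) • (fun k => ((combo c.2 (rays d) k : ℤ) : ℝ)) := by
    funext k
    simp only [Pi.smul_apply, cv, NNReal.smul_def]
    rw [← hk k]
    push_cast
    have : (c.1 : ℝ) ≠ 0 := by positivity
    simp only [smul_eq_mul]
    field_simp
  rw [this]
  exact (K d).smul_mem _ hm

theorem cv_mul (r s : Fin 6 → ℤ) : cv r * cv s = cv (fun k => r k * s k) := by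
  funext k; simp [cv]

theorem half_of_Lz {z : Fin 6 → ℤ} (h : 0 ≤ Lz z) : cv z ∈ K 6 := by
  unfold K
  rw [if_neg (by norm_num), if_pos rfl]
  show 0 ≤ ∑ k, (wt k : ℝ) * cv z k
  unfold Lz at h
  have : (∑ k, (wt k : ℝ) * cv z k) = ((∑ k, wt k * z k : ℤ) : ℝ) := by
    push_cast
    rfl
  rw [this]
  exact_mod_cast h

theorem raySet_zero : raySet 0 = {1} := by
  ext v
  simp only [raySet, rays, List.mem_singleton, exists_eq_left, Set.mem_singleton_iff]
  have : cv (![1, 1, 1, 1, 1, 1]) = (1 : Fin 6 → ℝ) := by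
    funext k; fin_cases k <;> simp [cv]
  constructor
  · intro h; rw [← this]; exact h
  · intro h; rw [this]; exact h

theorem K_zero_mul {v w : Fin 6 → ℝ} {S : Submodule NNReal (Fin 6 → ℝ)} (hv : v ∈ K 0)
    (hw : w ∈ S) : v * w ∈ S := by
  unfold K at hv
  rw [if_pos (by norm_num), raySet_zero] at hv
  induction hv using Submodule.span_induction with
  | mem x h => rw [Set.mem_singleton_iff] at h; subst h; simpa using hw
  | zero => simp
  | add x y _ _ hx hy => rw [add_mul]; exact S.add_mem hx hy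
  | smul a x _ hx => rw [smul_mul_assoc]; exact S.smul_mem _ hx

theorem K_mul {i j : ℕ} {v w : Fin 6 → ℝ} (hv : v ∈ K i) (hw : w ∈ K j) : v * w ∈ K (i + j) := by
  rcases Nat.lt_or_ge 6 (i + j) with h | h
  · unfold K
    rw [if_neg (by omega), if_neg (by omega)]
    trivial
  rcases Nat.eq_zero_or_pos i with rfl | hi
  · rw [zero_add]; exact K_zero_mul hv hw
  rcases Nat.eq_zero_or_pos j with rfl | hj
  · rw [add_zero, mul_comm]; exact K_zero_mul hw hv
  have hi5 : i ≤ 5 := by omega
  have hj5 : j ≤ 5 := by omega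
  unfold K at hv hw
  rw [if_pos hi5] at hv
  rw [if_pos hj5] at hw
  induction hv using Submodule.span_induction with
  | mem x hx =>
    induction hw using Submodule.span_induction with
    | mem y hy =>
      obtain ⟨r, hr, rfl⟩ := hx
      obtain ⟨s, hs, rfl⟩ := hy
      rw [cv_mul]
      rcases Nat.lt_or_ge (i + j) 6 with h6 | h6
      · exact check_sound (by omega)
          (prods_ok i (by simp; omega) j (by simp; omega) (by omega) r hr s hs)
      · have h6' : i + j = 6 := by omega
        rw [h6']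
        exact half_of_Lz (prods6_ok i (by simp; omega) j (by simp; omega) h6' r hr s hs)
    | zero => simp
    | add y z _ _ hy hz => rw [mul_add]; exact (K (i + j)).add_mem hy hz
    | smul a y _ hy => rw [mul_smul_comm]; exact (K (i + j)).smul_mem _ hy
  | zero => simp
  | add y z _ _ hy hz => rw [add_mul]; exact (K (i + j)).add_mem hy hz
  | smul a y _ hy => rw [smul_mul_assoc]; exact (K (i + j)).smul_mem _ hy

/-- evaluation vector of a polynomial -/
noncomputable def evv (p : MvPolynomial (Fin 4) ℝ) : Fin 6 → ℝ :=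
  fun k => eval (fun i => (pt k i : ℝ)) p

theorem evv_mul (p q : MvPolynomial (Fin 4) ℝ) : evv (p * q) = evv p * evv q := by
  funext k; simp [evv]

theorem eval_msymm {n : ℕ} (l : Fin n → ℕ) (x : Fin n → ℝ) :
    eval x (msymm l) = ∑ η ∈ rearr l, ∏ i, x i ^ η i := by
  simp [msymm]

theorem eval_msymm_int (l : Fin 4 → ℕ) (y : Fin 4 → ℤ) :
    eval (fun i => (y i : ℝ)) (msymm l) = (mz l y : ℝ) := by
  rw [eval_msymm, mz]; push_cast; rfl

theorem eval_one_msymm {n : ℕ} (l : Fin n → ℕ) :
    eval (fun _ => (1 : ℝ)) (msymm l) = ((rearr l).card : ℝ) := by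
  rw [eval_msymm]; simp

theorem evv_normalized (l : Fin 4 → ℕ) (hl : (rearr l).card ∣ 24) (k : Fin 6) :
    24 * evv (normalized (msymm l)) k = cv (gz l) k := by
  obtain ⟨c, hc⟩ := hl
  have hpos : 0 < (rearr l).card := by
    rcases Nat.eq_zero_or_pos (rearr l).card with h | h
    · rw [h] at hc; omega
    · exact h
  have h24 : (24 / (rearr l).card : ℕ) = c := by
    rw [hc]; exact Nat.mul_div_cancel_left c hpos
  have e1 : evv (normalized (msymm l)) k = ((rearr l).card : ℝ)⁻¹ * (mz l (pt k) : ℝ) := by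
    unfold evv normalized
    rw [map_mul, eval_C, eval_msymm_int, eval_one_msymm]
  have e2 : cv (gz l) k = (c : ℝ) * (mz l (pt k) : ℝ) := by
    unfold cv gz
    rw [h24]; push_cast; rfl
  rw [e1, e2]
  have h1 : (24 : ℝ) = ((rearr l).card : ℝ) * (c : ℝ) := by exact_mod_cast hc
  have h2 : ((rearr l).card : ℝ) ≠ 0 := Nat.cast_ne_zero.mpr hpos.ne'
  rw [h1, mul_comm ((rearr l).card : ℝ) (c : ℝ), mul_assoc (c : ℝ) ((rearr l).card : ℝ),
    mul_inv_cancel_left₀ h2]

theorem smul24_mem {S : Submodule NNReal (Fin 6 → ℝ)} {v w : Fin 6 → ℝ}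
    (hvw : ∀ k, 24 * v k = w k) (h : w ∈ S) : v ∈ S := by
  have : v = ((24 : NNReal)⁻¹) • w := by
    funext k
    rw [Pi.smul_apply, NNReal.smul_def, ← hvw k, smul_eq_mul]
    push_cast
    ring
  rw [this]
  exact S.smul_mem _ h

theorem mem_parts_aux (a b c d : ℕ) (h : a + b + c + d ≤ 6) (h01 : b ≤ a) (h12 : c ≤ b)
    (h23 : d ≤ c) : (![a, b, c, d] : Fin 4 → ℕ) ∈ parts (a + b + c + d) := by
  have hd1 : d ≤ 1 := by omega
  have hc2 : c ≤ 2 := by omega
  have hb3 : b ≤ 3 := by omega
  have ha6 : a ≤ 6 := by omega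
  interval_cases d <;> interval_cases c <;> interval_cases b <;> interval_cases a <;>
    first
    | omega
    | (simp [parts])

theorem mem_parts (l : Fin 4 → ℕ) (hl : Antitone l) (h : ∑ i, l i ≤ 6) :
    l ∈ parts (∑ i, l i) := by
  rw [Fin.sum_univ_four] at *
  have h01 : l 1 ≤ l 0 := hl (by decide)
  have h12 : l 2 ≤ l 1 := hl (by decide)
  have h23 : l 3 ≤ l 2 := hl (by decide)
  have he : l = ![l 0, l 1, l 2, l 3] := by
    funext i; fin_cases i <;> rfl
  have := mem_parts_aux (l 0) (l 1) (l 2) (l 3) h h01 h12 h23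
  rw [← he] at this
  exact this

theorem majB_of {l m : Fin 4 → ℕ} (h : Majorizes l m) : majB l m = true := by
  have h1 := h.1 1
  have h2 := h.1 2
  have h3 := h.1 3
  simp only [Finset.sum_filter, Fin.sum_univ_four] at h1 h2 h3
  simp at h1 h2 h3
  unfold majB
  rw [decide_eq_true_eq]
  exact ⟨h1, h2, h3⟩

end Pool.Agent.R136.Mu
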