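import Pool.Agent.R136.Mu.Mem

set_option autoImplicit false

open MvPolynomial

namespace Pool.Agent.R136.Mu

theorem msymm_homog {n : ℕ} (l : Fin n → ℕ) : (msymm l).IsHomogeneous (∑ i, l i) := by
  unfold msymm
  apply IsHomogeneous.sum
  intro η hη
  rw [rearr, Finset.mem_image] at hη
  obtain ⟨σ, -, rfl⟩ := hη
  have h := IsHomogeneous.prod (R := ℝ) (Finset.univ : Finset (Fin n))
    (fun i => (X i : MvPolynomial (Fin n) ℝ) ^ l (σ i)) (fun i => l (σ i))
    (fun i _ => isHomogeneous_X_pow i (l (σ i)))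
  have e : ∑ i, l (σ i) = ∑ i, l i := Equiv.sum_comp σ l
  rw [e] at h
  exact h

theorem normalized_homog {n : ℕ} {P : MvPolynomial (Fin n) ℝ} {d : ℕ} (h : P.IsHomogeneous d) :
    (normalized P).IsHomogeneous d := by
  unfold normalized
  have := (isHomogeneous_C (Fin n) ((eval (fun _ => (1 : ℝ)) P)⁻¹)).mul h
  rwa [zero_add] at this

theorem K_top {d : ℕ} (h : 7 ≤ d) (v : Fin 6 → ℝ) : v ∈ K d := by
  unfold K
  rw [if_neg (by omega), if_neg (by omega)]
  trivial

theorem gen1 (l : Fin 4 → ℕ) (hl : Antitone l) :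
    (normalized (msymm l)).IsHomogeneous (∑ i, l i) ∧
      evv (normalized (msymm l)) ∈ K (∑ i, l i) := by
  refine ⟨normalized_homog (msymm_homog l), ?_⟩
  rcases Nat.lt_or_ge 6 (∑ i, l i) with h | h
  · exact K_top h _
  have hp := mem_parts l hl h
  have hc := card_dvd (∑ i, l i) (by rw [List.mem_range]; omega) l hp
  refine smul24_mem (evv_normalized l hc) ?_
  rcases Nat.lt_or_ge (∑ i, l i) 6 with h6 | h6
  · exact check_sound (by omega) (gens_ok _ (by rw [List.mem_range]; exact h6) l hp).1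
  · have h6' : ∑ i, l i = 6 := le_antisymm h h6
    rw [h6'] at hp ⊢
    exact half_of_Lz (gens6_ok l hp).1

theorem gen2 (l m : Fin 4 → ℕ) (hl : Antitone l) (hm : Antitone m) (hlm : Majorizes l m) :
    (normalized (msymm l) - normalized (msymm m)).IsHomogeneous (∑ i, l i) ∧
      evv (normalized (msymm l) - normalized (msymm m)) ∈ K (∑ i, l i) := by
  have hs : ∑ i, l i = ∑ i, m i := hlm.2
  refine ⟨(gen1 l hl).1.sub (by rw [hs]; exact (gen1 m hm).1), ?_⟩
  rcases Nat.lt_or_ge 6 (∑ i, l i) with h | h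
  · exact K_top h _
  have hp := mem_parts l hl h
  have hq : m ∈ parts (∑ i, l i) := by rw [hs] at h ⊢; exact mem_parts m hm h
  have hc := card_dvd (∑ i, l i) (by rw [List.mem_range]; omega) l hp
  have hd := card_dvd (∑ i, l i) (by rw [List.mem_range]; omega) m hq
  have key : ∀ k, 24 * evv (normalized (msymm l) - normalized (msymm m)) k
      = cv (fun k => gz l k - gz m k) k := by
    intro k
    have e1 := evv_normalized l hc k
    have e2 := evv_normalized m hd k
    have e3 : evv (normalized (msymm l) - normalized (msymm m)) k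
        = evv (normalized (msymm l)) k - evv (normalized (msymm m)) k := by
      simp [evv]
    have e4 : cv (fun k => gz l k - gz m k) k = cv (gz l) k - cv (gz m) k := by
      simp [cv]
    rw [e3, e4, mul_sub, e1, e2]
  refine smul24_mem key ?_
  rcases Nat.lt_or_ge (∑ i, l i) 6 with h6 | h6
  · exact check_sound (by omega)
      ((gens_ok _ (by rw [List.mem_range]; exact h6) l hp).2 m hq (majB_of hlm))
  · have h6' : ∑ i, l i = 6 := le_antisymm h h6
    rw [h6'] at hp hq ⊢
    exact half_of_Lz ((gens6_ok l hp).2 m hq (majB_of hlm))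

theorem closure_ok (G : MvPolynomial (Fin 4) ℝ)
    (hG : G ∈ Submonoid.closure (muirheadGens 4)) :
    ∃ d, G.IsHomogeneous d ∧ evv G ∈ K d := by
  induction hG using Submonoid.closure_induction with
  | mem x hx =>
    rcases hx with ⟨l, m, hl, hm, hlm, rfl⟩ | ⟨l, hl, rfl⟩
    · exact ⟨_, gen2 l m hl hm hlm⟩
    · exact ⟨_, gen1 l hl⟩
  | one =>
    refine ⟨0, isHomogeneous_one _ _, ?_⟩
    have : evv 1 = 1 := by funext k; simp [evv]
    rw [this]
    unfold K
    rw [if_pos (by norm_num), raySet_zero]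
    exact Submodule.subset_span rfl
  | mul x y _ _ hx hy =>
    obtain ⟨i, hi, hi'⟩ := hx
    obtain ⟨j, hj, hj'⟩ := hy
    refine ⟨i + j, hi.mul hj, ?_⟩
    rw [evv_mul]
    exact K_mul hi' hj'

/-- The separating functional. -/
noncomputable def Lam (p : MvPolynomial (Fin 4) ℝ) : ℝ :=
  ∑ k, (wt k : ℝ) * evv (homogeneousComponent 6 p) k

theorem Lam_add (p q : MvPolynomial (Fin 4) ℝ) : Lam (p + q) = Lam p + Lam q := by
  simp only [Lam, evv, map_add, mul_add, Finset.sum_add_distrib]

theorem Lam_smul (c : NNReal) (p : MvPolynomial (Fin 4) ℝ) : Lam (c • p) = (c : ℝ) * Lam p := by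
  have : c • p = (c : ℝ) • p := by rw [NNReal.smul_def]
  rw [this]
  simp only [Lam, evv, map_smul, smul_eval, Finset.mul_sum]
  refine Finset.sum_congr rfl fun k _ => ?_
  ring

theorem Lam_closure {G : MvPolynomial (Fin 4) ℝ}
    (hG : G ∈ Submonoid.closure (muirheadGens 4)) : 0 ≤ Lam G := by
  obtain ⟨d, hd, hK⟩ := closure_ok G hG
  unfold Lam
  rw [homogeneousComponent_of_mem ((mem_homogeneousSubmodule d G).2 hd)]
  by_cases h : d = 6
  · subst h
    unfold K at hK
    rw [if_neg (by norm_num), if_pos rfl] at hK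
    rw [if_pos rfl]
    exact hK
  · rw [if_neg (by omega)]
    simp [evv]

theorem Lam_nonneg {p : MvPolynomial (Fin 4) ℝ} (hp : p ∈ muirheadSemiring 4) : 0 ≤ Lam p := by
  have hp' : p ∈ Submodule.span NNReal
    (Submonoid.closure (muirheadGens 4) : Set (MvPolynomial (Fin 4) ℝ)) := hp
  induction hp' using Submodule.span_induction with
  | mem x hx => exact Lam_closure hx
  | zero => simp [Lam, evv]
  | add x y hx hy h1 h2 => rw [Lam_add]; exact add_nonneg (h1 hx) (h2 hy)
  | smul a x hx h => rw [Lam_smul]; exact mul_nonneg a.2 (h hx)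

end Pool.Agent.R136.Mu
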